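import Pool.Agent.N772.PC.Pol

/-!
# The component of the basin which contains the critical point is close to a round disc
-/

set_option autoImplicit false

open Set Filter Metric MeasureTheory Topology Complex

namespace Pool.Agent.N772.PC

open N62a1eb23
open Pool.Agent.H712R2 (P fc P_zero P_succ mem_multibrot_iff)
open Pool.Agent.N673.QC (DD DD_succ hasDerivAt_iter cont_iter cont_DD DD_cycle)
open Pool.Agent.H462R2.AD (hyp)

variable {d n : ℕ} {c l m κ : ℂ} {τ : ℝ}

/-- the renormalised map at the superattracting parameter -/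
theorem re_le (hd : 2 ≤ d) (hn : 1 ≤ n) {η : ℝ} (hP : P d n c = 0)
    (h1 : ∀ z : ℂ, ‖z‖ ≤ 3 → ‖deriv (re d n c l m 0) z - d * z ^ (d - 1)‖ ≤ η) {z : ℂ}
    (hz : ‖z‖ ≤ 1) : ‖re d n c l m 0 z‖ ≤ (1 + η) * ‖z‖ ^ d := by
  have h2 : ∀ y ∈ closedBall (0 : ℂ) 1, ‖deriv (HH d n (c + l * 0) m) y‖ ≤ 1 + η := by
    intro y hy
    rw [mem_closedBall_zero_iff] at hy
    have h3 := HH_close (c := c) (l := l) (m := m) (κ := 0) hd hn (ρ := 3) (by norm_num) h1 (y := y)
      (hy.trans (one_le_pow₀ (by norm_num)))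
    have := norm_le_norm_add_norm_sub' (deriv (HH d n (c + l * 0) m) y) 1
    rw [norm_one] at this
    linarith
  have h4 : HH d n (c + l * 0) m 0 = 0 := by
    have h5 := re_HH (d := d) (n := n) (c := c) (l := l) (m := m) (κ := 0) hn 0
    rw [zero_pow (by omega)] at h5
    rw [← h5]
    unfold re
    rw [mul_zero, mul_zero, add_zero]
    have h6 : (fc d c)^[n] 0 = 0 := hP
    rw [h6, zero_div]
  have h5 := (convex_closedBall (0 : ℂ) 1).norm_image_sub_le_of_norm_deriv_le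
    (f := HH d n (c + l * 0) m) (C := 1 + η) (x := 0) (y := z ^ d) (fun z _ =>
      (HH_diff d n _ m) z) h2 (by simp) (by
        rw [mem_closedBall_zero_iff, norm_pow]; exact pow_le_one₀ (norm_nonneg _) hz)
  rw [h4, sub_zero, sub_zero, ← re_HH hn, norm_pow] at h5
  exact h5

/-- the basin -/
def Bas (h : ℂ → ℂ) : Set ℂ := connectedComponentIn {z | Tendsto (fun j : ℕ => h^[j] z) atTop (𝓝 0)} 0

theorem contr {h : ℂ → ℂ} {q r : ℝ} (hq : 0 ≤ q) (hq1 : q < 1)
    (hc : ∀ z, ‖z‖ < r → ‖h z‖ ≤ q * ‖z‖) {z : ℂ} (hz : ‖z‖ < r) :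
    (∀ j : ℕ, ‖h^[j] z‖ ≤ q ^ j * ‖z‖) ∧ Tendsto (fun j : ℕ => h^[j] z) atTop (𝓝 0) := by
  have h1 : ∀ j : ℕ, ‖h^[j] z‖ ≤ q ^ j * ‖z‖ := by
    intro j
    induction j with
    | zero => simp
    | succ j ih =>
      have h2 : q ^ j ≤ 1 := pow_le_one₀ hq hq1.le
      have h3 : ‖h^[j] z‖ < r := by
        refine (ih.trans ?_).trans_lt hz
        nlinarith [norm_nonneg z]
      rw [Function.iterate_succ_apply']
      calc ‖h (h^[j] z)‖ ≤ q * ‖h^[j] z‖ := hc _ h3
        _ ≤ q * (q ^ j * ‖z‖) := by gcongr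
        _ = _ := by ring
  refine ⟨h1, ?_⟩
  apply squeeze_zero_norm h1
  have := (tendsto_pow_atTop_nhds_zero_of_lt_one hq hq1).mul_const ‖z‖
  rwa [zero_mul] at this

theorem bas_disc (hd : 2 ≤ d) {h : ℂ → ℂ} {s η : ℝ} (hη : 0 < η) (hη1 : η ≤ 1 / 4)
    (hs : 2 * η ≤ s) (hs1 : s ≤ 1) (hhc : Continuous h)
    (h1 : ∀ z : ℂ, ‖z‖ ≤ 1 → ‖h z‖ ≤ (1 + η) * ‖z‖ ^ d)
    (h2 : ∀ z : ℂ, ‖z‖ ≤ 3 → ‖h z - z ^ d‖ ≤ η) :
    ball 0 (1 - s) ⊆ Bas h ∧ Bas h ⊆ ball 0 (1 + s) := by
  obtain ⟨A, hA⟩ : ∃ A : Set ℂ, A = {z | Tendsto (fun j : ℕ => h^[j] z) atTop (𝓝 0)} := ⟨_, rfl⟩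
  have hBas : Bas h = connectedComponentIn A 0 := by rw [hA]; rfl
  -- contraction on discs
  have hcon : ∀ r : ℝ, 0 ≤ r → r ≤ 1 → ∀ z : ℂ, ‖z‖ < r → ‖h z‖ ≤ (1 + η) * r * ‖z‖ := by
    intro r hr0 hr1 z hz
    refine (h1 z (by linarith)).trans ?_
    have h3 : ‖z‖ ^ d = ‖z‖ ^ (d - 1) * ‖z‖ := by rw [← pow_succ, Nat.sub_add_cancel (by omega)]
    have h4 : ‖z‖ ^ (d - 1) ≤ r := by
      calc ‖z‖ ^ (d - 1) ≤ ‖z‖ := pow_le_of_le_one (norm_nonneg _) (by linarith) (by omega)
        _ ≤ r := hz.le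
    rw [h3, mul_assoc]
    gcongr
  have hhalf : ∀ z : ℂ, ‖z‖ < 1 / 2 → (∀ j : ℕ, ‖h^[j] z‖ ≤ (5 / 8) ^ j * ‖z‖) ∧
      Tendsto (fun j : ℕ => h^[j] z) atTop (𝓝 0) := by
    intro z hz
    apply contr (r := 1 / 2) (by norm_num) (by norm_num) _ hz
    intro x hx
    refine (hcon (1 / 2) (by norm_num) (by norm_num) x hx).trans ?_
    have := norm_nonneg x
    nlinarith
  constructor
  · rcases eq_or_lt_of_le hs1 with hs1 | hs1
    · rw [ball_eq_empty.2 (by linarith)]
      exact empty_subset _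
    have hin : ball 0 (1 - s) ⊆ A := by
      intro z hz
      rw [mem_ball_zero_iff] at hz
      rw [hA]
      refine (contr (q := (1 + η) * (1 - s)) (r := 1 - s) (by nlinarith) (by nlinarith) ?_ hz).2
      intro x hx
      exact hcon (1 - s) (by linarith) (by linarith) x hx
    rw [hBas]
    exact (convex_ball (0 : ℂ) (1 - s)).isPreconnected.subset_connectedComponentIn
      (mem_ball_self (by linarith)) hin
  · -- the two open sets
    obtain ⟨E, hE⟩ : ∃ E : Set ℂ, E = ⋃ J : ℕ, {z | (∀ i ∈ Finset.range J, ‖h^[i] z‖ < 1 + s) ∧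
        ‖h^[J] z‖ < 1 / 2} := ⟨_, rfl⟩
    obtain ⟨O, hO⟩ : ∃ O : Set ℂ, O = ⋃ i : ℕ, {z | 1 + s < ‖h^[i] z‖} := ⟨_, rfl⟩
    have hic : ∀ i : ℕ, Continuous (fun z => ‖h^[i] z‖) := fun i => (hhc.iterate i).norm
    have hEo : IsOpen E := by
      rw [hE]
      refine isOpen_iUnion fun J => ?_
      have h3 : {z : ℂ | (∀ i ∈ Finset.range J, ‖h^[i] z‖ < 1 + s) ∧ ‖h^[J] z‖ < 1 / 2} =
          (⋂ i ∈ Finset.range J, {z | ‖h^[i] z‖ < 1 + s}) ∩ {z | ‖h^[J] z‖ < 1 / 2} := by
        ext z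
        simp
      rw [h3]
      exact (isOpen_biInter_finset fun i _ => isOpen_lt (hic i) continuous_const).inter
        (isOpen_lt (hic J) continuous_const)
    have hOo : IsOpen O := by
      rw [hO]
      exact isOpen_iUnion fun i => isOpen_lt continuous_const (hic i)
    have hs0 : 0 < s := by linarith
    have hcov : A ⊆ E ∪ O := by
      intro z hz
      rw [hA] at hz
      have h3 : Tendsto (fun j : ℕ => ‖h^[j] z‖) atTop (𝓝 0) := by
        have := (show Tendsto (fun j : ℕ => h^[j] z) atTop (𝓝 0) from hz).norm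
        rwa [norm_zero] at this
      obtain ⟨J, hJ⟩ := (h3.eventually_lt_const (show (0 : ℝ) < 1 / 2 by norm_num)).exists
      by_cases h4 : ∀ i ∈ Finset.range J, ‖h^[i] z‖ < 1 + s
      · left
        rw [hE]
        exact mem_iUnion.2 ⟨J, h4, hJ⟩
      · right
        push Not at h4
        obtain ⟨i, -, hi⟩ := h4
        rw [hO]
        rcases hi.lt_or_eq with h5 | h5
        · exact mem_iUnion.2 ⟨i, h5⟩
        · refine mem_iUnion.2 ⟨i + 1, ?_⟩
          show 1 + s < ‖h^[i + 1] z‖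
          rw [Function.iterate_succ_apply']
          have h7 := h2 (h^[i] z) (by rw [← h5]; linarith)
          have h8 := norm_le_norm_add_norm_sub (h (h^[i] z)) ((h^[i] z) ^ d)
          rw [norm_pow, ← h5] at h8
          have h9 : (1 + s) ^ 2 ≤ (1 + s) ^ d := pow_le_pow_right₀ (by linarith) hd
          nlinarith
    have hdisj : Disjoint E O := by
      rw [Set.disjoint_left]
      intro z hz hz2
      rw [hE] at hz
      rw [hO] at hz2
      obtain ⟨J, h3, h4⟩ := mem_iUnion.1 hz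
      obtain ⟨i, h5⟩ := mem_iUnion.1 hz2
      rcases lt_or_ge i J with h6 | h6
      · exact absurd (h3 i (Finset.mem_range.2 h6)) (not_lt.2 (le_of_lt h5))
      · obtain ⟨k, rfl⟩ : ∃ k, i = k + J := ⟨i - J, by omega⟩
        have h7 := (hhalf _ h4).1 k
        rw [← Function.iterate_add_apply] at h7
        have h8 : (5 / 8 : ℝ) ^ k ≤ 1 := pow_le_one₀ (by norm_num) (by norm_num)
        have h9 : 1 + s < ‖h^[k + J] z‖ := h5
        have h10 := norm_nonneg (h^[J] z)
        nlinarith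
    have h0E : (0 : ℂ) ∈ E := by
      rw [hE]
      exact mem_iUnion.2 ⟨0, by simp⟩
    have hEb : E ⊆ ball 0 (1 + s) := by
      intro z hz
      rw [hE] at hz
      obtain ⟨J, h3, h4⟩ := mem_iUnion.1 hz
      rw [mem_ball_zero_iff]
      rcases Nat.eq_zero_or_pos J with h5 | h5
      · rw [h5, Function.iterate_zero, id_eq] at h4
        linarith
      · exact h3 0 (Finset.mem_range.2 h5)
    rw [hBas]
    have h0A : (0 : ℂ) ∈ A := by
      rw [hA]
      exact (hhalf 0 (by simp)).2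
    have hpre : IsPreconnected (connectedComponentIn A 0) := isPreconnected_connectedComponentIn
    refine (hpre.subset_left_of_subset_union hEo hOo hdisj
      ((connectedComponentIn_subset A 0).trans hcov) ⟨0, mem_connectedComponentIn h0A, h0E⟩).trans hEb

/-- **The component of the basin**, in the original coordinate. -/
theorem bas_orig (hd : 2 ≤ d) (hn : 1 ≤ n) (hm : m ≠ 0) (hP : P d n c = 0)
    (hU : Un d n c l m τ) (hτ : (9 : ℝ) ^ d * Real.exp (-τ) ≤ 1 / 4) {s : ℝ}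
    (hs : 2 * (9 ^ d * Real.exp (-τ)) ≤ s) :
    ball 0 ((1 - s) * ‖m‖) ⊆
        connectedComponentIn {z | Tendsto (fun j : ℕ => (fc d c)^[n * j] z) atTop (𝓝 0)} 0 ∧
      connectedComponentIn {z | Tendsto (fun j : ℕ => (fc d c)^[n * j] z) atTop (𝓝 0)} 0 ⊆
        ball 0 ((1 + s) * ‖m‖) := by
  have hmn : 0 < ‖m‖ := norm_pos_iff.2 hm
  have hcl := hU.cl hm hτ (κ := 0) (by rw [norm_zero]; positivity)
  obtain ⟨η, hη⟩ : ∃ η : ℝ, η = 9 ^ d * Real.exp (-τ) := ⟨_, rfl⟩
  have hη0 : 0 < η := by rw [hη]; positivity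
  rw [← hη] at hcl hτ hs
  obtain ⟨k1, k2⟩ := bas_disc (s := min s 1) hd hη0 hτ (le_min hs (by linarith)) (min_le_right _ _)
    (re_diff (d := d) (n := n) (c := c) (l := l) (κ := 0) hm).continuous
    (fun z hz => re_le hd hn hP (fun z hz => (hcl.2 z hz).2) hz)
    (fun z hz => by
      have := (hcl.2 z hz).1
      rwa [add_zero] at this)
  -- the homeomorphism
  obtain ⟨e, he⟩ : ∃ e : ℂ ≃ₜ ℂ, e = Homeomorph.mulLeft₀ m hm := ⟨_, rfl⟩
  have hev : ∀ z, e z = m * z := fun z => by rw [he]; rfl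
  have hbij : ∀ z, m * (z / m) = z := fun z => by field_simp
  have hc0 : c + l * 0 = c := by ring
  have hA : {z | Tendsto (fun j : ℕ => (fc d c)^[n * j] z) atTop (𝓝 0)} =
      e '' {z | Tendsto (fun j : ℕ => (re d n c l m 0)^[j] z) atTop (𝓝 0)} := by
    have h3 : ∀ z : ℂ, Tendsto (fun j : ℕ => (fc d c)^[n * j] (m * z)) atTop (𝓝 0) ↔
        Tendsto (fun j : ℕ => (re d n c l m 0)^[j] z) atTop (𝓝 0) := by
      intro z
      have h4 : (fun j : ℕ => (fc d c)^[n * j] (m * z)) =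
          fun j : ℕ => m * (re d n c l m 0)^[j] z := by
        funext j
        rw [re_iter hm, hc0]
      rw [h4]
      constructor
      · intro h5
        have h6 := h5.const_mul m⁻¹
        rw [mul_zero] at h6
        refine h6.congr fun j => ?_
        field_simp
      · intro h5
        have h6 := h5.const_mul m
        rwa [mul_zero] at h6
    ext w
    constructor
    · intro hw
      refine ⟨w / m, ?_, by rw [hev, hbij]⟩
      apply (h3 _).1
      rw [hbij]
      exact hw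
    · rintro ⟨z, hz, rfl⟩
      rw [hev]
      exact (h3 z).2 hz
  have h0 : (0 : ℂ) ∈ {z | Tendsto (fun j : ℕ => (re d n c l m 0)^[j] z) atTop (𝓝 0)} := by
    have h5 : ∀ j : ℕ, (re d n c l m 0)^[j] 0 = 0 := by
      intro j
      induction j with
      | zero => rfl
      | succ j ih =>
        rw [Function.iterate_succ_apply', ih]
        unfold re
        rw [hc0, mul_zero]
        have h6 : (fc d c)^[n] 0 = 0 := hP
        rw [h6, zero_div]
    simp only [mem_ofPred_eq, h5]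
    exact tendsto_const_nhds
  have hcomp : connectedComponentIn {z | Tendsto (fun j : ℕ => (fc d c)^[n * j] z) atTop (𝓝 0)} 0 =
      e '' Bas (re d n c l m 0) := by
    have h7 := e.image_connectedComponentIn h0
    rw [hA]
    have h8 : e 0 = 0 := by rw [hev, mul_zero]
    rw [h8] at h7
    exact h7.symm
  have hball : ∀ r : ℝ, e '' ball 0 r = ball 0 (r * ‖m‖) := by
    intro r
    ext w
    constructor
    · rintro ⟨z, hz, rfl⟩
      rw [mem_ball_zero_iff] at hz ⊢
      rw [hev, norm_mul, mul_comm]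
      gcongr
    · intro hw
      rw [mem_ball_zero_iff] at hw
      refine ⟨w / m, ?_, by rw [hev, hbij]⟩
      rw [mem_ball_zero_iff, norm_div, div_lt_iff₀ hmn]
      exact hw
  rw [hcomp, ← hball, ← hball]
  constructor
  · exact image_mono ((ball_subset_ball (by linarith [min_le_left s 1])).trans k1)
  · exact image_mono (k2.trans (ball_subset_ball (by linarith [min_le_left s 1])))

end Pool.Agent.N772.PC
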