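import Pool.Agent.N772.PC.Rob
import Pool.Agent.R240.Chain
import Pool.Agent.H548R3.MB.Eff2

/-!
# Uniform versions on compact sets; superattracting parameters close to the boundary
-/

set_option autoImplicit false

open Set Filter Metric MeasureTheory Topology Complex

namespace Pool.Agent.N772.PC

open N62a1eb23
open Pool.Agent.H712R2 (P fc P_zero P_succ mem_multibrot_iff)
open Pool.Agent.N673.QC (DD DD_succ hasDerivAt_iter cont_iter cont_DD DD_cycle)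
open Pool.Agent.H462R2.AD (hyp)

/-- an attracting cycle and a bounded critical orbit -/
def AB (h : ℂ → ℂ) : Prop :=
  (∃ (p : ℕ) (z : ℂ), 0 < p ∧ h^[p] z = z ∧ ‖deriv (h^[p]) z‖ < 1) ∧ ∀ j, ‖h^[j] 0‖ ≤ 3

/-- a compactness argument -/
theorem uniform {K : Set ℂ} (hK : IsCompact K) {Q : ℂ → ℝ → Prop}
    (hmono : ∀ κ η η', η' ≤ η → Q κ η → Q κ η')
    (h : ∀ κ ∈ K, ∃ η : ℝ, 0 < η ∧ ∀ᶠ κ' in 𝓝 κ, Q κ' η) :
    ∃ η : ℝ, 0 < η ∧ ∀ κ ∈ K, Q κ η := by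
  refine hK.induction_on (p := fun S => ∃ η : ℝ, 0 < η ∧ ∀ κ ∈ S, Q κ η) ⟨1, one_pos, by simp⟩
    ?_ ?_ ?_
  · rintro S T hST ⟨η, hη, H⟩
    exact ⟨η, hη, fun κ hκ => H κ (hST hκ)⟩
  · rintro S T ⟨η, hη, H⟩ ⟨η', hη', H'⟩
    refine ⟨min η η', lt_min hη hη', ?_⟩
    rintro κ (hκ | hκ)
    · exact hmono κ _ _ (min_le_left _ _) (H κ hκ)
    · exact hmono κ _ _ (min_le_right _ _) (H' κ hκ)
  · intro κ hκ
    obtain ⟨η, hη, H⟩ := h κ hκ
    exact ⟨{κ' | Q κ' η}, mem_nhdsWithin_of_mem_nhds H, η, hη, fun κ' h' => h'⟩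

/-- hyperbolic parameters -/
theorem hyp_uniform {d : ℕ} (hd : 2 ≤ d) {ε : ℝ} (hε : 0 < ε) : ∃ η : ℝ, 0 < η ∧
    ∀ κ : ℂ, ball κ ε ⊆ hyp d → ∀ h : ℂ → ℂ, Cl d κ h η → AB h := by
  obtain ⟨K, hK⟩ : ∃ K : Set ℂ, K = {κ | ‖κ‖ ≤ 2} ∩ ⋂ x ∈ (hyp d)ᶜ, {κ | ε ≤ dist κ x} := ⟨_, rfl⟩
  have hKc : IsCompact K := by
    have h1 : IsClosed (⋂ x ∈ (hyp d)ᶜ, {κ : ℂ | ε ≤ dist κ x}) :=
      isClosed_biInter fun x _ => isClosed_le continuous_const (continuous_id.dist continuous_const)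
    have h2 : {κ : ℂ | ‖κ‖ ≤ 2} = closedBall 0 2 := by ext κ; simp
    rw [hK, h2]
    exact (isCompact_closedBall (0 : ℂ) 2).inter_right h1
  have hKh : K ⊆ hyp d := by
    intro κ hκ
    by_contra h1
    rw [hK] at hκ
    have h2 := Set.mem_iInter₂.1 hκ.2 κ h1
    simp only [mem_ofPred_eq, dist_self] at h2
    linarith
  obtain ⟨η, hη, H⟩ := uniform hKc (Q := fun κ η => ∀ h : ℂ → ℂ, Cl d κ h η → AB h)
    (fun κ η η' h1 h2 h hcl => h2 h (hcl.mono h1)) (fun κ hκ => att_robust hd (hKh hκ))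
  refine ⟨η, hη, fun κ hκ => H κ ?_⟩
  rw [hK]
  constructor
  · have h1 : κ ∈ hyp d := hκ (mem_ball_self hε)
    have hM : κ ∈ multibrotSet d := interior_subset (Pool.Agent.R240.Alm.att_interior hd h1)
    have := (mem_multibrot_iff hd κ).1 hM 1
    rw [P_succ, P_zero, zero_pow (by omega), zero_add] at this
    exact this
  · refine Set.mem_iInter₂.2 fun x hx => ?_
    by_contra h1
    rw [mem_ofPred_eq, not_le] at h1
    exact hx (hκ (by rwa [mem_ball, dist_comm]))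

/-- escaping parameters -/
theorem esc_uniform {d : ℕ} {ε : ℝ} (hε : 0 < ε) : ∃ η : ℝ, 0 < η ∧
    ∀ κ : ℂ, ‖κ‖ ≤ 3 → (∀ x ∈ multibrotSet d, ε ≤ dist κ x) → ∀ h : ℂ → ℂ, Cl d κ h η →
      ∃ j, 3 < ‖h^[j] 0‖ := by
  obtain ⟨K, hK⟩ : ∃ K : Set ℂ, K = {κ | ‖κ‖ ≤ 3} ∩ ⋂ x ∈ multibrotSet d, {κ | ε ≤ dist κ x} :=
    ⟨_, rfl⟩
  have hKc : IsCompact K := by
    have h1 : IsClosed (⋂ x ∈ multibrotSet d, {κ : ℂ | ε ≤ dist κ x}) :=
      isClosed_biInter fun x _ => isClosed_le continuous_const (continuous_id.dist continuous_const)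
    have h2 : {κ : ℂ | ‖κ‖ ≤ 3} = closedBall 0 3 := by ext κ; simp
    rw [hK, h2]
    exact (isCompact_closedBall (0 : ℂ) 3).inter_right h1
  have hKh : ∀ κ ∈ K, κ ∉ multibrotSet d := by
    intro κ hκ h1
    rw [hK] at hκ
    have h2 := Set.mem_iInter₂.1 hκ.2 κ h1
    simp only [mem_ofPred_eq, dist_self] at h2
    linarith
  obtain ⟨η, hη, H⟩ := uniform hKc (Q := fun κ η => ∀ h : ℂ → ℂ, Cl d κ h η → ∃ j, 3 < ‖h^[j] 0‖)
    (fun κ η η' h1 h2 h hcl => h2 h (hcl.mono h1)) (fun κ hκ => esc_robust (hKh κ hκ))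
  refine ⟨η, hη, fun κ hκ hκ2 => H κ ?_⟩
  rw [hK]
  exact ⟨hκ, Set.mem_iInter₂.2 hκ2⟩

/-- parameters in the closure of the hyperbolic ones -/
theorem clo_uniform {d : ℕ} (hd : 2 ≤ d) {ε : ℝ} (hε : 0 < ε) : ∃ η : ℝ, 0 < η ∧
    ∀ κ ∈ closure (hyp d), ∃ κ' : ℂ, dist κ κ' < ε ∧ ‖κ'‖ ≤ 2 ∧
      ∀ h : ℂ → ℂ, Cl d κ' h η → AB h := by
  have hMc := Pool.Agent.H712R2.isCompact_multibrot hd
  have hsub : hyp d ⊆ multibrotSet d := fun κ h =>
    interior_subset (Pool.Agent.R240.Alm.att_interior hd h)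
  have hKc : IsCompact (closure (hyp d)) :=
    hMc.of_isClosed_subset isClosed_closure (closure_minimal hsub hMc.isClosed)
  apply uniform hKc (Q := fun κ η => ∃ κ' : ℂ, dist κ κ' < ε ∧ ‖κ'‖ ≤ 2 ∧
      ∀ h : ℂ → ℂ, Cl d κ' h η → AB h)
  · rintro κ η η' h1 ⟨κ', h2, h3, h4⟩
    exact ⟨κ', h2, h3, fun h hcl => h4 h (hcl.mono h1)⟩
  · intro κ hκ
    obtain ⟨κ', hκ'1, hκ'2⟩ := Metric.mem_closure_iff.1 hκ (ε / 2) (by positivity)
    obtain ⟨η, hη, H⟩ := att_robust hd hκ'1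
    refine ⟨η, hη, ?_⟩
    filter_upwards [ball_mem_nhds κ (half_pos hε)] with x hx
    rw [mem_ball] at hx
    refine ⟨κ', ?_, ?_, H.self_of_nhds⟩
    · have := dist_triangle x κ κ'
      linarith
    · have := (mem_multibrot_iff hd κ').1 (hsub hκ'1) 1
      rw [P_succ, P_zero, zero_pow (by omega), zero_add] at this
      exact this

/-- the boundary is in the closure of the superattracting parameters -/
theorem frontier_sub {d : ℕ} (hd : 2 ≤ d) : frontier (multibrotSet d) ⊆ closure (hyp d) := by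
  intro c hc
  rw [Metric.mem_closure_iff]
  intro ε hε
  by_contra hcon
  push Not at hcon
  have hMc := (Pool.Agent.H712R2.isCompact_multibrot hd).isClosed
  have hcM : c ∈ multibrotSet d := hMc.frontier_subset hc
  have hno : ∀ N : ℕ, ∀ t ∈ ball (0 : ℂ) 1, P d (N + 1) (c + ε * t) ≠ 0 := by
    intro N t ht h0
    have h1 : c + ε * t ∈ hyp d := ⟨N + 1, 0, Pool.Agent.H548R3.MB.att_of_centre hd (by omega) h0⟩
    have h2 := hcon _ h1
    rw [dist_eq_norm, sub_add_cancel_left, norm_neg, norm_mul, Complex.norm_real, Real.norm_eq_abs,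
      abs_of_pos hε] at h2
    rw [mem_ball_zero_iff] at ht
    nlinarith
  have hc0 : c ≠ 0 := by
    rintro rfl
    have := hno 0 0 (mem_ball_self one_pos)
    apply this
    rw [mul_zero, add_zero, P_succ, P_zero, zero_pow (by omega), zero_add]
  have hcn : 0 < ‖c‖ := norm_pos_iff.2 hc0
  obtain ⟨A, hA⟩ : ∃ A : ℝ, A = max 1 (2 ^ d / ‖c‖) := ⟨_, rfl⟩
  have hA1 : 1 ≤ A := by rw [hA]; exact le_max_left _ _
  have hA2 : (2 : ℝ) ^ d ≤ A * ‖c‖ := by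
    have : 2 ^ d / ‖c‖ ≤ A := by rw [hA]; exact le_max_right _ _
    rwa [div_le_iff₀ hcn] at this
  -- the orbits are bounded next to `c`
  have hbd : ∀ t : ℂ, ‖t‖ ≤ 1 / 4 → ∀ N : ℕ, ‖P d N (c + ε * t)‖ ^ d ≤
      Pool.Agent.R240.SH A * (‖c‖ + ε) := by
    intro t ht N
    have h1 := Pool.Agent.R240.disc_step hd (γ := fun t => c + ε * t) (by fun_prop) (hno N) hA1 (by
      rw [mul_zero, add_zero]
      refine le_trans ?_ hA2
      gcongr
      exact (mem_multibrot_iff hd c).1 hcM N) ht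
    refine h1.trans ?_
    have h2 : 0 ≤ Pool.Agent.R240.SH A := zero_le_one.trans (Pool.Agent.R240.SH_one hA1)
    gcongr
    refine (norm_add_le _ _).trans ?_
    gcongr
    rw [norm_mul, Complex.norm_real, Real.norm_eq_abs, abs_of_pos hε]
    nlinarith [norm_nonneg t]
  have hin : ball c (ε / 4) ⊆ multibrotSet d := by
    intro x hx
    intro hlim
    obtain ⟨t, ht⟩ : ∃ t : ℂ, t = (x - c) / ε := ⟨_, rfl⟩
    have hε' : (ε : ℂ) ≠ 0 := by exact_mod_cast hε.ne'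
    have hxt : c + ε * t = x := by rw [ht]; field_simp; ring
    have ht1 : ‖t‖ ≤ 1 / 4 := by
      rw [ht, norm_div, Complex.norm_real, Real.norm_eq_abs, abs_of_pos hε, div_le_iff₀ hε,
        ← dist_eq_norm]
      rw [mem_ball] at hx
      linarith
    have h1 : Tendsto (fun k ↦ ‖P d k x‖ ^ d) atTop atTop := by
      have h2 : Tendsto (fun k ↦ ‖P d k x‖) atTop atTop := tendsto_norm_cobounded_atTop.comp hlim
      exact (tendsto_pow_atTop (by omega : d ≠ 0)).comp h2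
    obtain ⟨k, hk⟩ := (h1.eventually (eventually_gt_atTop (Pool.Agent.R240.SH A * (‖c‖ + ε)))).exists
    have h3 := hbd t ht1 k
    rw [hxt] at h3
    linarith
  exact hc.2 (mem_interior.2 ⟨_, hin, isOpen_ball, mem_ball_self (by positivity)⟩)

end Pool.Agent.N772.PC
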