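import Pool.Agent.N673.QC.Comp
import Pool.Agent.H548R3.MB.Eff2

/-!
# The attracting periodic point as a holomorphic function of the parameter, on a whole component

The proof is the one of `Pool.Agent.N673.QC.component` (helper673), with a stronger conclusion.
-/

set_option autoImplicit false

namespace Pool.Agent.N772.PC

open Complex Filter Topology Set Metric MeasureTheory
open N62a1eb23
open Pool.Agent.H712R2 (P fc P_zero P_succ)
open Pool.Agent.N673.QC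

variable {d : ℕ}

theorem DD_zero' (hd : 2 ≤ d) {m : ℕ} (hm : 0 < m) (c : ℂ) : DD d m c 0 = 0 := by
  rw [← (hasDerivAt_iter d m c 0).deriv]
  obtain ⟨k, rfl⟩ : ∃ k, m = k + 1 := ⟨m - 1, by omega⟩
  rw [Function.iterate_succ]
  have h1 : HasDerivAt (fc d c) ((d : ℂ) * 0 ^ (d - 1)) 0 := by
    have := (hasDerivAt_pow d (0 : ℂ)).add_const c
    exact this
  have h2 := (hasDerivAt_iter d k c (fc d c 0)).comp (0 : ℂ) h1
  rw [h2.deriv, zero_pow (by omega), mul_zero, mul_zero]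

/-- **The attracting periodic point.** -/
theorem comp_fun (hd : 2 ≤ d) {V : Set ℂ} (hV : IsOpen V) (hVp : IsPreconnected V)
    (hVM : V ⊆ multibrotSet d) {c₀ : ℂ} (hc₀ : c₀ ∈ V) {m : ℕ} (hm : 0 < m)
    (h0 : P d m c₀ = 0) :
    ∃ g : ℂ → ℂ, DifferentiableOn ℂ g V ∧ g c₀ = 0 ∧ ∀ c ∈ V, (fc d c)^[m] (g c) = g c ∧
      ‖DD d m c (g c)‖ < 1 := by
  have h : IsAttractingCycle (fc d c₀) m 0 := Pool.Agent.H548R3.MB.att_of_centre hd hm h0
  set F : ℕ → ℂ → ℂ := fun k c => P d (m * k) c with hF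
  have hFd : ∀ k, DifferentiableOn ℂ (F k) V := by
    intro k
    have h1 : F k = fun c => (PP d (m * k)).eval c := by
      funext c; rw [eval_PP]
    rw [h1]
    exact (PP d (m * k)).differentiable.differentiableOn
  have hFb : ∀ k, ∀ c ∈ V, ‖F k c‖ ≤ 2 := fun k c hc => norm_P_le hd (hVM hc) _
  have hstep : ∀ k c, F (k + 1) c = (fc d c)^[m] (F k c) := by
    intro k c
    show (fc d c)^[m * (k + 1)] 0 = (fc d c)^[m] ((fc d c)^[m * k] 0)
    rw [← Function.iterate_add_apply]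
    congr 1
    ring
  have hmont := fun 𝒰 : Ultrafilter ℕ =>
    Pool.Agent.Helper114.Montel.montel hV F hFd 2 hFb 𝒰
  choose Φ hΦd hΦ using hmont
  have hΦ' : ∀ (𝒰 : Ultrafilter ℕ), ∀ c ∈ V, Tendsto (fun k => F k c) 𝒰 (𝓝 (Φ 𝒰 c)) :=
    fun 𝒰 c hc => (hΦ 𝒰).tendsto_at hc
  -- convergence close to `c₀`
  have hloc : ∀ᶠ c in 𝓝 c₀, ∃ w, Tendsto (fun k => F k c) atTop (𝓝 w) := by
    filter_upwards [persist h] with c hc
    obtain ⟨z, hz⟩ := hc
    obtain ⟨l, hl⟩ := Pool.Agent.TH363.CD.crit_conv hd hz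
    exact ⟨_, hl⟩
  obtain ⟨𝒰₀, h𝒰₀⟩ : ∃ 𝒰 : Ultrafilter ℕ, (𝒰 : Filter ℕ) ≤ atTop :=
    ⟨Ultrafilter.of atTop, Ultrafilter.of_le _⟩
  have hsame : ∀ 𝒰 : Ultrafilter ℕ, (𝒰 : Filter ℕ) ≤ atTop → EqOn (Φ 𝒰) (Φ 𝒰₀) V := by
    intro 𝒰 h𝒰
    refine AnalyticOnNhd.eqOn_of_preconnected_of_eventuallyEq ((hΦd 𝒰).analyticOnNhd hV)
      ((hΦd 𝒰₀).analyticOnNhd hV) hVp hc₀ ?_
    filter_upwards [hloc, hV.mem_nhds hc₀] with c hc hcV
    obtain ⟨w, hw⟩ := hc
    rw [tendsto_nhds_unique (hΦ' 𝒰 c hcV) (hw.mono_left h𝒰),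
      tendsto_nhds_unique (hΦ' 𝒰₀ c hcV) (hw.mono_left h𝒰₀)]
  set g : ℂ → ℂ := Φ 𝒰₀ with hg
  have hgd : DifferentiableOn ℂ g V := hΦd 𝒰₀
  have hconv : ∀ c ∈ V, Tendsto (fun k => F k c) atTop (𝓝 (g c)) := by
    intro c hc
    rw [tendsto_iff_ultrafilter]
    intro 𝒰 h𝒰
    have := hΦ' 𝒰 c hc
    rwa [hsame 𝒰 h𝒰 hc] at this
  have hfix : ∀ c ∈ V, (fc d c)^[m] (g c) = g c := by
    intro c hc
    have h1 := (hconv c hc).comp (tendsto_add_atTop_nat 1)
    have h2 : Tendsto (fun k => (fc d c)^[m] (F k c)) atTop (𝓝 ((fc d c)^[m] (g c))) :=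
      ((hasDerivAt_iter d m c (g c)).continuousAt.tendsto).comp (hconv c hc)
    refine tendsto_nhds_unique h2 (h1.congr fun k => ?_)
    exact hstep k c
  set lam : ℂ → ℂ := fun c => DD d m c (g c) with hlam
  have hlamd : DifferentiableOn ℂ lam V := diff_DD d m hgd
  -- not repelling
  have hle : ∀ c ∈ V, ‖lam c‖ ≤ 1 := by
    intro c₁ hc₁
    by_contra hcon
    rw [not_le] at hcon
    have h1 : ∀ᶠ c in 𝓝 c₁, 1 < ‖lam c‖ :=
      ((hlamd.differentiableAt (hV.mem_nhds hc₁)).continuousAt.norm).eventually (lt_mem_nhds hcon)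
    have h2 : {c : ℂ | ∃ k : ℕ, P d (m * (k + 1)) c = P d (m * k) c} ∈ 𝓝 c₁ := by
      filter_upwards [h1, hV.mem_nhds hc₁] with c hc hcV
      obtain ⟨k, hk⟩ := repelling (hasDerivAt_iter d m c (g c)) hc (hfix c hcV)
        (fun k => hstep k c) (hconv c hcV)
      refine ⟨k, ?_⟩
      show F (k + 1) c = F k c
      rw [hstep, hk, hfix c hcV]
    obtain ⟨r, hr, hr2⟩ := Metric.mem_nhds_iff.1 h2
    have h3 : volume (ball c₁ r) = 0 := ((countable_eq hd hm).mono hr2).measure_zero volume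
    exact (measure_ball_pos volume c₁ hr).ne' h3
  -- superattracting at `c₀`
  have hP0 : ∀ k, F k c₀ = 0 := by
    intro k
    induction k with
    | zero => rfl
    | succ k ih => rw [hstep, ih]; exact h0
  have hg0 : g c₀ = 0 := by
    refine tendsto_nhds_unique (hconv c₀ hc₀) ?_
    simp only [hP0]
    exact tendsto_const_nhds
  have hlt : ‖lam c₀‖ < 1 := by
    rw [hlam]
    simp only
    rw [hg0, DD_zero' hd hm, norm_zero]
    exact one_pos
  refine ⟨g, hgd, hg0, fun c hc => ⟨hfix c hc, ?_⟩⟩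
  by_contra hcon
  rw [not_lt] at hcon
  have hmax : IsMaxOn (norm ∘ lam) V c := fun w hw => (hle w hw).trans hcon
  have h1 := Complex.eqOn_of_isPreconnected_of_isMaxOn_norm hVp hV hlamd hc hmax hc₀
  rw [Function.const_apply] at h1
  rw [h1] at hlt
  exact absurd hlt (not_lt.2 hcon)

end Pool.Agent.N772.PC
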