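import Pool.Agent.N772.PC.Sha

/-!
# The component of a superattracting parameter is a copy of the main component
-/

set_option autoImplicit false

open Set Filter Metric MeasureTheory Topology Complex

namespace Pool.Agent.N772.PC

open N62a1eb23
open Pool.Agent.H712R2 (P fc P_zero P_succ mem_multibrot_iff)
open Pool.Agent.N673.QC (DD DD_succ hasDerivAt_iter cont_iter cont_DD DD_cycle)
open Pool.Agent.H462R2.AD (hyp)

variable {d n : ℕ} {c l m κ : ℂ} {τ : ℝ}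

theorem small_pow (hd : 2 ≤ d) {w : ℂ} (h : d * ‖w‖ ^ (d - 1) < 2) : ‖w‖ < 1 := by
  have hdR : (2 : ℝ) ≤ d := by exact_mod_cast hd
  by_contra hcon
  push Not at hcon
  have : 1 ≤ ‖w‖ ^ (d - 1) := one_le_pow₀ hcon
  nlinarith

/-- **Outer inclusion.** -/
theorem outer (hd : 2 ≤ d) (hn : 1 ≤ n) (hl : l ≠ 0) (hm : m ≠ 0) (hP : P d n c = 0)
    (hU : Un d n c l m τ) (hτ : (9 : ℝ) ^ d * Real.exp (-τ) ≤ 1 / 4) {b : ℂ}
    (hb : b ∈ connectedComponentIn (interior (multibrotSet d)) c) :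
    ∃ ζ : ℂ, d * ‖ζ‖ ^ (d - 1) ≤ 1 + 9 ^ d * Real.exp (-τ) ∧ ‖ζ‖ ≤ 1 ∧
      ‖(b - c) / l - (ζ - ζ ^ d)‖ ≤ 9 ^ d * Real.exp (-τ) := by
  obtain ⟨η, hη⟩ : ∃ η : ℝ, η = 9 ^ d * Real.exp (-τ) := ⟨_, rfl⟩
  obtain ⟨V, hVe⟩ : ∃ V, V = connectedComponentIn (interior (multibrotSet d)) c := ⟨_, rfl⟩
  have hη0 : 0 < η := by rw [hη]; positivity
  have hcI : c ∈ interior (multibrotSet d) := Pool.Agent.R240.Alm.att_interior hd
    ⟨n, 0, Pool.Agent.H548R3.MB.att_of_centre hd hn hP⟩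
  have hVo : IsOpen V := by rw [hVe]; exact isOpen_interior.connectedComponentIn
  have hVp : IsPreconnected V := by rw [hVe]; exact isPreconnected_connectedComponentIn
  have hVM : V ⊆ multibrotSet d := by
    rw [hVe]; exact (connectedComponentIn_subset _ _).trans interior_subset
  have hcV : c ∈ V := by rw [hVe]; exact mem_connectedComponentIn hcI
  obtain ⟨g, hgd, hg0, hg⟩ := comp_fun hd hVo hVp hVM hcV (by omega : 0 < n) hP
  -- the estimates
  have key : ∀ x ∈ V, ‖g x / m‖ ≤ 3 → ‖(x - c) / l‖ ≤ 3 →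
      d * ‖g x / m‖ ^ (d - 1) ≤ 1 + η ∧ ‖g x / m‖ < 1 ∧
      ‖(x - c) / l - (g x / m - (g x / m) ^ d)‖ ≤ η ∧ ‖(x - c) / l‖ ≤ 5 / 2 := by
    intro x hx h1 h2
    have h3 : (3 : ℝ) ≤ 3 ^ d := le_self_pow₀ (by norm_num) (by omega)
    have hcl := hU.cl hm hτ (κ := (x - c) / l) (h2.trans h3)
    rw [← hη] at hcl hτ
    obtain ⟨h4, h5⟩ := hcl.2 (g x / m) h1
    have e1 : c + l * ((x - c) / l) = x := by field_simp; ring
    have e2 : m * (g x / m) = g x := by field_simp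
    obtain ⟨g1, g2⟩ := hg x hx
    have h6 : re d n c l m ((x - c) / l) (g x / m) = g x / m := by
      unfold re
      rw [e1, e2, g1]
    have h7 : deriv (re d n c l m ((x - c) / l)) (g x / m) = DD d n x (g x) := by
      have := re_deriv (d := d) (n := n) (c := c) (l := l) (κ := (x - c) / l) hm 1 (g x / m)
      rw [Function.iterate_one, mul_one, e1, e2, (hasDerivAt_iter d n x (g x)).deriv] at this
      exact this
    rw [h6] at h4
    rw [h7] at h5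
    have h8 : d * ‖g x / m‖ ^ (d - 1) ≤ 1 + η := by
      have h9 : ‖(d : ℂ) * (g x / m) ^ (d - 1)‖ ≤ 1 + η := by
        have := norm_le_norm_add_norm_sub (DD d n x (g x)) (d * (g x / m) ^ (d - 1))
        linarith
      rwa [norm_mul, Complex.norm_natCast, norm_pow] at h9
    have h10 : ‖g x / m‖ < 1 := small_pow hd (by linarith)
    have h11 : ‖(x - c) / l - (g x / m - (g x / m) ^ d)‖ ≤ η := by
      rw [← norm_neg]
      have e : -((x - c) / l - (g x / m - (g x / m) ^ d)) =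
          g x / m - ((g x / m) ^ d + (x - c) / l) := by ring
      rw [e]
      exact h4
    refine ⟨h8, h10, h11, ?_⟩
    have h12 : ‖g x / m - (g x / m) ^ d‖ ≤ 2 := by
      refine (norm_sub_le _ _).trans ?_
      rw [norm_pow]
      have : ‖g x / m‖ ^ d ≤ 1 := pow_le_one₀ (norm_nonneg _) h10.le
      linarith
    have := norm_le_norm_add_norm_sub' ((x - c) / l) (g x / m - (g x / m) ^ d)
    linarith
  -- continuity
  obtain ⟨F, hF⟩ : ∃ F : ℂ → ℝ, F = fun x => max ‖g x / m‖ ‖(x - c) / l‖ := ⟨_, rfl⟩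
  have hFc : ContinuousOn F V := by
    rw [hF]
    refine ContinuousOn.sup ?_ ?_
    · exact (hgd.continuousOn.div_const m).norm
    · exact (((continuous_id.sub continuous_const).div_const l).norm).continuousOn
  have hF0 : F c = 0 := by rw [hF]; simp [hg0]
  have hbV : b ∈ V := by rw [hVe]; exact hb
  have hFb : F b ≤ 5 / 2 := by
    by_contra hcon
    push Not at hcon
    have h1 := hVp.intermediate_value hcV hbV hFc
    have h2 : min (F b) 3 ∈ Icc (F c) (F b) := by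
      rw [hF0]
      exact ⟨le_min (by linarith) (by norm_num), min_le_left _ _⟩
    obtain ⟨x, hx, hx2⟩ := h1 h2
    have h3 : F x ≤ 3 := by rw [hx2]; exact min_le_right _ _
    have h4 : 5 / 2 < F x := by rw [hx2]; exact lt_min hcon (by norm_num)
    rw [hF] at h3 h4
    obtain ⟨-, k1, -, k2⟩ := key x hx ((le_max_left _ _).trans h3) ((le_max_right _ _).trans h3)
    rcases lt_max_iff.1 h4 with h5 | h5 <;> linarith
  rw [hF] at hFb
  obtain ⟨k1, k2, k3, -⟩ := key b hbV ((le_max_left _ _).trans (hFb.trans (by norm_num)))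
    ((le_max_right _ _).trans (hFb.trans (by norm_num)))
  rw [← hη]
  exact ⟨g b / m, k1, k2.le, k3⟩

/-- **Outer inclusion**, with points of the main component. -/
theorem outer' (hd : 2 ≤ d) (hn : 1 ≤ n) (hl : l ≠ 0) (hm : m ≠ 0) (hP : P d n c = 0)
    (hU : Un d n c l m τ) (hτ : (9 : ℝ) ^ d * Real.exp (-τ) ≤ 1 / 4) {b : ℂ}
    (hb : b ∈ connectedComponentIn (interior (multibrotSet d)) c) :
    ∃ w : ℂ, d * ‖w‖ ^ (d - 1) < 1 ∧
      ‖b - (c + l * (w - w ^ d))‖ ≤ (3 + 2 * d) * (9 ^ d * Real.exp (-τ)) * ‖l‖ := by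
  obtain ⟨ζ, h1, h2, h3⟩ := outer hd hn hl hm hP hU hτ hb
  obtain ⟨η, hη⟩ : ∃ η : ℝ, η = 9 ^ d * Real.exp (-τ) := ⟨_, rfl⟩
  have hη0 : 0 < η := by rw [hη]; positivity
  rw [← hη] at h1 h3 ⊢
  obtain ⟨t, ht⟩ : ∃ t : ℝ, t = 1 / (1 + 2 * η) := ⟨_, rfl⟩
  have ht0 : 0 < t := by rw [ht]; positivity
  have ht1 : t ≤ 1 := by
    rw [ht, div_le_one (by positivity)]
    linarith
  have ht2 : 1 - t ≤ 2 * η := by
    rw [ht, sub_le_iff_le_add, ← sub_le_iff_le_add', le_div_iff₀ (by positivity)]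
    nlinarith
  have hdR : (2 : ℝ) ≤ d := by exact_mod_cast hd
  have hw1 : ‖(t : ℂ) * ζ‖ ≤ 1 := by
    rw [norm_mul, Complex.norm_real, Real.norm_eq_abs, abs_of_pos ht0]
    nlinarith [norm_nonneg ζ]
  refine ⟨t * ζ, ?_, ?_⟩
  · rw [norm_mul, Complex.norm_real, Real.norm_eq_abs, abs_of_pos ht0, mul_pow]
    have h4 : t ^ (d - 1) ≤ t := pow_le_of_le_one ht0.le ht1 (by omega)
    calc d * (t ^ (d - 1) * ‖ζ‖ ^ (d - 1)) = t ^ (d - 1) * (d * ‖ζ‖ ^ (d - 1)) := by ring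
      _ ≤ t * (1 + η) := by gcongr
      _ < 1 := by
          rw [ht, one_div, inv_mul_lt_iff₀ (by positivity)]
          linarith
  · have h5 : ‖(t * ζ - (t * ζ) ^ d) - (ζ - ζ ^ d)‖ ≤ (1 + d) * (2 * η) := by
      have e : (t * ζ - (t * ζ) ^ d) - (ζ - ζ ^ d) = (t * ζ - ζ) - ((t * ζ) ^ d - ζ ^ d) := by ring
      have h6 := Pool.Agent.H762R2.Rt.pow_lip hw1 h2 d
      rw [one_pow, mul_one] at h6
      have h7 : ‖t * ζ - ζ‖ ≤ 2 * η := by
        have e2 : (t : ℂ) * ζ - ζ = -(((1 - t : ℝ) : ℂ) * ζ) := by push_cast; ring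
        rw [e2, norm_neg, norm_mul, Complex.norm_real, Real.norm_eq_abs, abs_of_nonneg (by linarith)]
        nlinarith [norm_nonneg ζ]
      rw [e]
      calc _ ≤ ‖t * ζ - ζ‖ + ‖(t * ζ) ^ d - ζ ^ d‖ := norm_sub_le _ _
        _ ≤ ‖t * ζ - ζ‖ + d * ‖t * ζ - ζ‖ := by gcongr
        _ = (1 + d) * ‖t * ζ - ζ‖ := by ring
        _ ≤ _ := by gcongr
    have e : b - (c + l * (t * ζ - (t * ζ) ^ d)) = l * (((b - c) / l - (ζ - ζ ^ d)) -
        ((t * ζ - (t * ζ) ^ d) - (ζ - ζ ^ d))) := by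
      field_simp
      ring
    rw [e, norm_mul, mul_comm]
    gcongr
    calc _ ≤ ‖(b - c) / l - (ζ - ζ ^ d)‖ + ‖(t * ζ - (t * ζ) ^ d) - (ζ - ζ ^ d)‖ := norm_sub_le _ _
      _ ≤ η + (1 + d) * (2 * η) := add_le_add h3 h5
      _ = _ := by ring

/-- the parameters of the copy of the main component, and their multipliers -/
theorem inner_pt (hd : 2 ≤ d) (hm : m ≠ 0)
    (hU : Un d n c l m τ) (hτ : (9 : ℝ) ^ d * Real.exp (-τ) ≤ 1 / 4) {s : ℝ} (hs : 0 < s)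
    (hs1 : s ≤ 1) (hsτ : 9 ^ d * Real.exp (-τ) ≤ s * (s / (d ^ 2 * 2 ^ (d + 2))) / 2) {w : ℂ}
    (hw : d * ‖w‖ ^ (d - 1) ≤ 1 - s) :
    ∃ z : ℂ, ‖z - w‖ ≤ s ∧ (fc d (c + l * (w - w ^ d)))^[n] (m * z) = m * z ∧
      ‖deriv ((fc d (c + l * (w - w ^ d)))^[n]) (m * z)‖ < 1 ∧
      ‖deriv ((fc d (c + l * (w - w ^ d)))^[n]) (m * z) - d * w ^ (d - 1)‖ ≤ s := by
  have hdR : (2 : ℝ) ≤ d := by exact_mod_cast hd
  have hw1 : ‖w‖ < 1 := small_pow hd (by linarith)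
  have hκ : ‖w - w ^ d‖ ≤ 3 ^ d := by
    have h1 : ‖w‖ ^ d ≤ 1 := pow_le_one₀ (norm_nonneg _) hw1.le
    have h3 : (3 : ℝ) ≤ 3 ^ d := le_self_pow₀ (by norm_num) (by omega)
    refine (norm_sub_le _ _).trans ?_
    rw [norm_pow]
    linarith
  obtain ⟨z, hz, h1, h2, h3⟩ := fix_robust hd hs hs1 hw hsτ (hU.cl hm hτ hκ)
  have e1 := re_deriv (d := d) (n := n) (c := c) (l := l) (κ := w - w ^ d) hm 1 z
  rw [Function.iterate_one, mul_one] at e1
  rw [e1] at h2 h3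
  refine ⟨z, ?_, ?_, h2, h3.trans (by linarith)⟩
  · rw [mem_closedBall, dist_eq_norm] at hz
    refine hz.trans (div_le_self hs.le ?_)
    have h4 : (1 : ℝ) ≤ d ^ 2 := one_le_pow₀ (by linarith)
    have h5 : (1 : ℝ) ≤ 2 ^ (d + 2) := one_le_pow₀ (by norm_num)
    nlinarith
  · have h4 := re_iter (d := d) (n := n) (c := c) (l := l) (κ := w - w ^ d) hm 1 z
    rw [Function.iterate_one, mul_one] at h4
    rw [← h4, h1]

/-- **Inner inclusion.** -/
theorem inner (hd : 2 ≤ d) (hn : 1 ≤ n) (hm : m ≠ 0)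
    (hU : Un d n c l m τ) (hτ : (9 : ℝ) ^ d * Real.exp (-τ) ≤ 1 / 4) {s : ℝ} (hs : 0 < s)
    (hs1 : s ≤ 1) (hsτ : 9 ^ d * Real.exp (-τ) ≤ s * (s / (d ^ 2 * 2 ^ (d + 2))) / 2) {w : ℂ}
    (hw : d * ‖w‖ ^ (d - 1) ≤ 1 - s) :
    c + l * (w - w ^ d) ∈ connectedComponentIn (interior (multibrotSet d)) c := by
  obtain ⟨S, hS⟩ : ∃ S : Set ℂ, S = (fun t : ℝ => c + l * (t * w - (t * w) ^ d)) '' Icc 0 1 :=
    ⟨_, rfl⟩
  have hSp : IsPreconnected S := by
    rw [hS]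
    exact isPreconnected_Icc.image _ (by fun_prop)
  have hSI : S ⊆ interior (multibrotSet d) := by
    rw [hS]
    rintro _ ⟨t, ht, rfl⟩
    have h1 : d * ‖(t : ℂ) * w‖ ^ (d - 1) ≤ 1 - s := by
      refine le_trans ?_ hw
      gcongr
      rw [norm_mul, Complex.norm_real, Real.norm_eq_abs, abs_of_nonneg ht.1]
      have := ht.2
      nlinarith [norm_nonneg w]
    obtain ⟨z, -, h2, h3, -⟩ := inner_pt hd hm hU hτ hs hs1 hsτ h1
    exact Pool.Agent.R240.Alm.att_interior hd ⟨n, m * z, by omega, h2, diff_fc d n _ _, h3⟩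
  have hcS : c ∈ S := by
    rw [hS]
    refine ⟨0, by simp, ?_⟩
    simp only [Complex.ofReal_zero, zero_mul, zero_pow (by omega : d ≠ 0), sub_zero, mul_zero,
      add_zero]
  apply hSp.subset_connectedComponentIn hcS hSI
  rw [hS]
  refine ⟨1, by simp, ?_⟩
  simp only [Complex.ofReal_one, one_mul]

end Pool.Agent.N772.PC
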