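import Pool.Agent.N772.TC.Uni
import Pool.Agent.N772.PC.Inc

/-!
# The renormalised families at the superattracting parameters next to a parameter with a Lyapunov
exponent
-/

set_option autoImplicit false

open Set Filter Metric MeasureTheory Topology

namespace Pool.Agent.N772.PC

open Pool.Agent.TH279.MD (f)
open Pool.Agent.Y298.CA
open Pool.Agent.N772.TC
open Pool.Agent.H712R2 (P fc)
open Pool.Agent.N253.MS (ev_lin)

/-- the numbers -/
theorem num {d n : ℕ} (hd : 2 ≤ d) (hn : 1 ≤ n) {A X Y e : ℝ} {c l m : ℂ} (h : Bd d n A c)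
    (hA : 1 ≤ A) (hP : P d n c = 0) (hm0 : m ≠ 0)
    (hm : m ^ (d - 1) * deriv ((f d c)^[n - 1]) c = 1)
    (hl : l * deriv (P d n) c = m) (hAX : A ≤ Real.exp (X + e)) (he : 0 ≤ e)
    (h400 : 400 * d ≤ Real.exp e)
    (hl1 : ‖l‖ ≤ Real.exp (-(X + Y - 2 * e))) (hm1 : ‖m‖ ^ d ≤ Real.exp (-(X + Y - 2 * e)))
    (hm2 : ‖m‖ ^ (d - 1) ≤ Real.exp (-(X - e))) (hm3 : Real.exp (-(Y + e)) ≤ ‖m‖) :
    Un d n c l m (Y - 8 * e) := by
  intro R hR1 hR κ z hκ hz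
  have hdR : (2 : ℝ) ≤ d := by exact_mod_cast hd
  have hmn : 0 < ‖m‖ := norm_pos_iff.2 hm0
  obtain ⟨S, hS⟩ : ∃ S : ℝ, S = R * Real.exp (-(X + Y - 2 * e)) := ⟨_, rfl⟩
  have hS0 : 0 < S := by rw [hS]; positivity
  have h1 : ‖l * κ‖ ≤ S := by
    rw [norm_mul, hS, mul_comm]
    gcongr
  have h2 : ‖(m * z) ^ d‖ ≤ S := by
    rw [norm_pow, norm_mul, mul_pow, hS, mul_comm]
    gcongr
  have hA0 : 0 < A := by linarith
  have h8 : 8 * A * S < 1 := by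
    calc 8 * A * S ≤ 8 * Real.exp (X + e) * (Real.exp (Y - 8 * e) * Real.exp (-(X + Y - 2 * e))) := by
          rw [hS]
          gcongr
      _ = 8 * Real.exp (-(5 * e)) := by
          rw [← Real.exp_add, mul_assoc, ← Real.exp_add]
          congr 2
          ring
      _ < Real.exp e * Real.exp (-(5 * e)) := by
          have : (8 : ℝ) < Real.exp e := by linarith
          gcongr
      _ = Real.exp (-(4 * e)) := by
          rw [← Real.exp_add]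
          congr 1
          ring
      _ ≤ 1 := by rw [Real.exp_le_one_iff]; linarith
  have h9 : S < 1 / (8 * A) := by
    rw [lt_div_iff₀ (by positivity)]
    linarith
  obtain ⟨u1, u2⟩ := h.uni hd hn hA hP hm hl (k := κ) (z := z) (h1.trans_lt h9) (h2.trans_lt h9)
  constructor
  · have e1 : (fc d (c + l * κ))^[n] (m * z) / m - (z ^ d + κ) =
        ((f d (c + l * κ))^[n] (m * z) - m * (z ^ d + κ)) / m := by
      show (f d (c + l * κ))^[n] (m * z) / m - (z ^ d + κ) = _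
      field_simp
    rw [e1, norm_div, div_le_iff₀ hmn]
    refine u1.trans ?_
    calc _ ≤ 16 * A ^ 2 * (S ^ 2 + (S + S) * S) := by gcongr
      _ = 48 * (A ^ 2 * S ^ 2) := by ring
      _ ≤ Real.exp e * (Real.exp (X + e) ^ 2 * S ^ 2) := by
          have : (48 : ℝ) ≤ Real.exp e := by linarith
          gcongr
      _ = R ^ 2 * Real.exp (-(Y - 8 * e)) * Real.exp (-(Y + e)) := by
          rw [hS, mul_pow, ← Real.exp_nat_mul, ← Real.exp_nat_mul]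
          rw [show Real.exp e * (Real.exp ((2 : ℕ) * (X + e)) * (R ^ 2 * Real.exp ((2 : ℕ) *
            -(X + Y - 2 * e)))) = R ^ 2 * (Real.exp e * Real.exp ((2 : ℕ) * (X + e)) *
            Real.exp ((2 : ℕ) * -(X + Y - 2 * e))) by ring, mul_assoc (R ^ 2), ← Real.exp_add,
            ← Real.exp_add, ← Real.exp_add]
          congr 2
          push_cast
          ring
      _ ≤ R ^ 2 * Real.exp (-(Y - 8 * e)) * ‖m‖ := by gcongr
  · show ‖deriv ((f d (c + l * κ))^[n]) (m * z) - d * z ^ (d - 1)‖ ≤ _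
    refine u2.trans ?_
    have h3 : ‖z‖ ^ (d - 1) ≤ R := by
      rcases le_total ‖z‖ 1 with h4 | h4
      · exact (pow_le_one₀ (norm_nonneg _) h4).trans hR1
      · exact (pow_le_pow_right₀ h4 (by omega)).trans hz
    have hmz : ‖m * z‖ ^ (d - 1) = ‖m‖ ^ (d - 1) * ‖z‖ ^ (d - 1) := by rw [norm_mul, mul_pow]
    calc _ ≤ 16 * A ^ 2 * (S + S) * (d * (Real.exp (-(X - e)) * R)) := by
          rw [hmz]
          gcongr
      _ = (32 * d) * (A ^ 2 * (S * Real.exp (-(X - e)) * R)) := by ring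
      _ ≤ Real.exp e * (Real.exp (X + e) ^ 2 * (S * Real.exp (-(X - e)) * R)) := by
          have : 32 * (d : ℝ) ≤ Real.exp e := by linarith
          gcongr
      _ = R ^ 2 * Real.exp (-(Y - 6 * e)) := by
          rw [hS, ← Real.exp_nat_mul]
          rw [show Real.exp e * (Real.exp ((2 : ℕ) * (X + e)) * (R * Real.exp (-(X + Y - 2 * e)) *
            Real.exp (-(X - e)) * R)) = R ^ 2 * (Real.exp e * Real.exp ((2 : ℕ) * (X + e)) *
            Real.exp (-(X + Y - 2 * e)) * Real.exp (-(X - e))) by ring, ← Real.exp_add,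
            ← Real.exp_add, ← Real.exp_add]
          congr 2
          push_cast
          ring
      _ ≤ R ^ 2 * Real.exp (-(Y - 8 * e)) := by
          gcongr
          linarith

/-- **The renormalised families.** -/
theorem uni_near {d : ℕ} (hd : 2 ≤ d) {χ : ℝ} {c₀ : ℂ} (h : Lyap d χ c₀) {ε : ℝ} (hε : 0 < ε) :
    ∃ δ : ℝ, 0 < δ ∧ ∀ᶠ n : ℕ in atTop, ∀ c : ℂ, P d n c = 0 →
      ‖c - c₀‖ ≤ Real.exp (-((χ - δ) * n)) → ∃ l m : ℂ, l ≠ 0 ∧ m ≠ 0 ∧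
        m ^ (d - 1) * deriv ((fc d c)^[n - 1]) c = 1 ∧ l * deriv (P d n) c = m ∧
        (Real.exp (-((χ * d / (d - 1) + ε) * n)) ≤ ‖l‖ ∧
          ‖l‖ ≤ Real.exp (-((χ * d / (d - 1) - ε) * n))) ∧
        (Real.exp (-((χ / (d - 1) + ε) * n)) ≤ ‖m‖ ∧
          ‖m‖ ≤ Real.exp (-((χ / (d - 1) - ε) * n))) ∧
        Un d n c l m ((χ / (d - 1) - ε) * n) := by
  have hε8 : 0 < ε / 8 := by positivity
  obtain ⟨δ₁, hδ₁, H₁⟩ := upper_per hd h hε8
  obtain ⟨δ₂, hδ₂, H₂⟩ := der_law hd h hε8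
  refine ⟨min δ₁ δ₂, lt_min hδ₁ hδ₂, ?_⟩
  filter_upwards [H₁, H₂, eventually_ge_atTop 1, ev_lin hε8 (Real.log (400 * d))]
    with n hn1 hn2 hn hn3 c hP hc
  have hdR : (2 : ℝ) ≤ d := by exact_mod_cast hd
  have hd1 : (0 : ℝ) < (d : ℝ) - 1 := by linarith
  have hn0 : (0 : ℝ) < n := by exact_mod_cast hn
  obtain ⟨A, hA1, hA2, hA3⟩ := hn1 c hP (hc.trans (Real.exp_le_exp.2 (by
    have : (χ - δ₁) * n ≤ (χ - min δ₁ δ₂) * n := by
      gcongr
      exact min_le_left _ _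
    linarith)))
  obtain ⟨⟨a1, a2⟩, ⟨a3, a4⟩, -⟩ := hn2 c hP (hc.trans (Real.exp_le_exp.2 (by
    have : (χ - δ₂) * n ≤ (χ - min δ₁ δ₂) * n := by
      gcongr
      exact min_le_right _ _
    linarith)))
  obtain ⟨D, hD⟩ : ∃ D, D = deriv ((f d c)^[n - 1]) c := ⟨_, rfl⟩
  obtain ⟨E, hE⟩ : ∃ E, E = deriv (P d n) c := ⟨_, rfl⟩
  rw [← hD] at a1 a2
  rw [← hE] at a3 a4
  have hDn : 0 < ‖D‖ := (Real.exp_pos _).trans_le a1
  have hEn : 0 < ‖E‖ := (Real.exp_pos _).trans_le a3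
  have hD0 : D ≠ 0 := norm_pos_iff.1 hDn
  have hE0 : E ≠ 0 := norm_pos_iff.1 hEn
  obtain ⟨m, hm⟩ := IsAlgClosed.exists_pow_nat_eq (D⁻¹) (by omega : 0 < d - 1)
  have hm0 : m ≠ 0 := by
    rintro rfl
    rw [zero_pow (by omega)] at hm
    exact inv_ne_zero hD0 hm.symm
  have hmn : 0 < ‖m‖ := norm_pos_iff.2 hm0
  -- the exponents
  obtain ⟨X, hX⟩ : ∃ X : ℝ, X = χ * n := ⟨_, rfl⟩
  obtain ⟨Y, hY⟩ : ∃ Y : ℝ, Y = χ / (d - 1) * n := ⟨_, rfl⟩
  obtain ⟨e, he⟩ : ∃ e : ℝ, e = ε / 8 * n := ⟨_, rfl⟩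
  have he0 : 0 < e := by rw [he]; positivity
  have hdm : ((d - 1 : ℕ) : ℝ) = (d : ℝ) - 1 := by
    push_cast [Nat.cast_sub (show 1 ≤ d by omega)]; ring
  have hXY : X = (d - 1 : ℕ) * Y := by
    rw [hX, hY, hdm]
    field_simp
  have b1 : Real.exp (X - e) ≤ ‖D‖ := by
    refine le_trans (Real.exp_le_exp.2 ?_) a1
    rw [hX, he]; linarith
  have b2 : ‖D‖ ≤ Real.exp (X + e) := by
    refine a2.trans (Real.exp_le_exp.2 ?_)
    rw [hX, he]; linarith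
  have b3 : Real.exp (X - e) ≤ ‖E‖ := by
    refine le_trans (Real.exp_le_exp.2 ?_) a3
    rw [hX, he]; linarith
  have b4 : ‖E‖ ≤ Real.exp (X + e) := by
    refine a4.trans (Real.exp_le_exp.2 ?_)
    rw [hX, he]; linarith
  have b5 : A ≤ Real.exp (X + e) := by
    refine hA2.trans (Real.exp_le_exp.2 ?_)
    rw [hX, he]; linarith
  have h400 : 400 * (d : ℝ) ≤ Real.exp e := by
    rw [← Real.log_le_iff_le_exp (by positivity), he]
    exact hn3.le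
  have hd1' : (1 : ℝ) ≤ (d - 1 : ℕ) := by exact_mod_cast (by omega : 1 ≤ d - 1)
  -- `m`
  have c1 : ‖m‖ ^ (d - 1) = ‖D‖⁻¹ := by rw [← norm_pow, hm, norm_inv]
  have c2 : ‖m‖ ^ (d - 1) ≤ Real.exp (-(X - e)) := by
    rw [c1, Real.exp_neg]
    exact inv_anti₀ (Real.exp_pos _) b1
  have c3 : Real.exp (-(X + e)) ≤ ‖m‖ ^ (d - 1) := by
    rw [c1, Real.exp_neg]
    exact inv_anti₀ hDn b2
  have c4 : ‖m‖ ≤ Real.exp (-(Y - e)) := by
    rw [← pow_le_pow_iff_left₀ hmn.le (Real.exp_pos _).le (by omega : d - 1 ≠ 0)]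
    refine c2.trans ?_
    rw [← Real.exp_nat_mul]
    apply Real.exp_le_exp.2
    rw [hXY]
    have : e ≤ ((d - 1 : ℕ) : ℝ) * e := le_mul_of_one_le_left he0.le hd1'
    linarith
  have c5 : Real.exp (-(Y + e)) ≤ ‖m‖ := by
    rw [← pow_le_pow_iff_left₀ (Real.exp_pos _).le hmn.le (by omega : d - 1 ≠ 0)]
    refine le_trans ?_ c3
    rw [← Real.exp_nat_mul]
    apply Real.exp_le_exp.2
    rw [hXY]
    have : e ≤ ((d - 1 : ℕ) : ℝ) * e := le_mul_of_one_le_left he0.le hd1'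
    linarith
  have c6 : ‖m‖ ^ d ≤ Real.exp (-(X + Y - 2 * e)) := by
    calc ‖m‖ ^ d = ‖m‖ ^ (d - 1) * ‖m‖ := by rw [← pow_succ, Nat.sub_add_cancel (by omega)]
      _ ≤ Real.exp (-(X - e)) * Real.exp (-(Y - e)) := by gcongr
      _ = _ := by rw [← Real.exp_add]; congr 1; ring
  -- `l`
  obtain ⟨l, hl⟩ : ∃ l, l = m / E := ⟨_, rfl⟩
  have hlE : l * E = m := by rw [hl]; field_simp
  have hl0 : l ≠ 0 := by rw [hl]; exact div_ne_zero hm0 hE0
  have c7 : ‖l‖ = ‖m‖ * ‖E‖⁻¹ := by rw [hl, norm_div, div_eq_mul_inv]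
  have c8 : ‖E‖⁻¹ ≤ Real.exp (-(X - e)) := by
    rw [Real.exp_neg]; exact inv_anti₀ (Real.exp_pos _) b3
  have c9 : Real.exp (-(X + e)) ≤ ‖E‖⁻¹ := by
    rw [Real.exp_neg]; exact inv_anti₀ hEn b4
  have c10 : ‖l‖ ≤ Real.exp (-(X + Y - 2 * e)) := by
    rw [c7]
    calc ‖m‖ * ‖E‖⁻¹ ≤ Real.exp (-(Y - e)) * Real.exp (-(X - e)) := by gcongr
      _ = _ := by rw [← Real.exp_add]; congr 1; ring
  have c11 : Real.exp (-(X + Y + 2 * e)) ≤ ‖l‖ := by
    rw [c7]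
    calc _ = Real.exp (-(Y + e)) * Real.exp (-(X + e)) := by
          rw [← Real.exp_add]; congr 1; ring
      _ ≤ ‖m‖ * ‖E‖⁻¹ := by gcongr
  have hexp : χ * d / (d - 1) * n = X + Y := by
    rw [hX, hY]
    field_simp
    ring
  have hmD : m ^ (d - 1) * D = 1 := by rw [hm]; field_simp
  have h8e : 8 * e = ε * n := by rw [he]; ring
  refine ⟨l, m, hl0, hm0, ?_, ?_, ⟨?_, ?_⟩, ⟨?_, ?_⟩, ?_⟩
  · rw [hD] at hmD
    exact hmD
  · rw [← hE]
    exact hlE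
  · refine le_trans (Real.exp_le_exp.2 ?_) c11
    rw [add_mul, hexp, ← h8e]
    linarith
  · refine c10.trans (Real.exp_le_exp.2 ?_)
    rw [sub_mul, hexp, ← h8e]
    linarith
  · refine le_trans (Real.exp_le_exp.2 ?_) c5
    rw [add_mul, ← hY, ← h8e]
    linarith
  · refine c4.trans (Real.exp_le_exp.2 ?_)
    rw [sub_mul, ← hY, ← h8e]
    linarith
  · have e1 : (χ / (d - 1) - ε) * n = Y - 8 * e := by rw [hY, h8e]; ring
    rw [e1]
    exact num hd hn hA3 hA1 hP hm0 (by rw [← hD]; exact hmD) (by rw [← hE]; exact hlE) b5 he0.le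
      h400 c10 c6 c2 c5

end Pool.Agent.N772.PC
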