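import Pool.Agent.N673.QC.Comp
import Pool.Agent.R240.Alm2
import Pool.Agent.H762R2.RtB

/-!
# Perturbations of `z ^ d + κ`: attracting cycles and escape to infinity are robust
-/

set_option autoImplicit false

open Set Filter Metric MeasureTheory Topology Complex

namespace Pool.Agent.N772.PC

open N62a1eb23
open Pool.Agent.H712R2 (P fc P_zero P_succ mem_multibrot_iff)
open Pool.Agent.N673.QC (DD DD_succ hasDerivAt_iter cont_iter cont_DD DD_cycle)
open Pool.Agent.H462R2.AD (hyp)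

/-- `h` is `η`-close to `z ^ d + κ` on the disc of radius `3`. -/
def Cl (d : ℕ) (κ : ℂ) (h : ℂ → ℂ) (η : ℝ) : Prop :=
  Differentiable ℂ h ∧ ∀ z : ℂ, ‖z‖ ≤ 3 →
    ‖h z - (z ^ d + κ)‖ ≤ η ∧ ‖deriv h z - d * z ^ (d - 1)‖ ≤ η

theorem Cl.mono {d : ℕ} {κ : ℂ} {h : ℂ → ℂ} {η η' : ℝ} (H : Cl d κ h η) (hη : η ≤ η') :
    Cl d κ h η' :=
  ⟨H.1, fun z hz => ⟨(H.2 z hz).1.trans hη, (H.2 z hz).2.trans hη⟩⟩

/-- the iterates -/
theorem iter_close (d : ℕ) (j : ℕ) : ∃ C : ℝ, 1 ≤ C ∧ ∀ (κ : ℂ) (h : ℂ → ℂ) (η : ℝ),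
    C * η ≤ 1 / 2 → Cl d κ h η → ∀ z : ℂ,
    (∀ i < j, ‖h^[i] z‖ ≤ 3 ∨ ‖(fc d κ)^[i] z‖ ≤ 5 / 2) →
    ‖h^[j] z - (fc d κ)^[j] z‖ ≤ C * η ∧ ‖deriv (h^[j]) z - DD d j κ z‖ ≤ C * η ∧
      ‖deriv (h^[j]) z‖ ≤ C ∧ ∀ i < j, ‖h^[i] z‖ ≤ 3 := by
  induction j with
  | zero =>
    refine ⟨1, le_rfl, fun κ h η _ hcl z _ => ?_⟩
    have hη : 0 ≤ η := (norm_nonneg _).trans (hcl.2 0 (by norm_num)).1
    have e1 : deriv (h^[0]) z = 1 := by
      rw [Function.iterate_zero]; exact deriv_id z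
    have e2 : DD d 0 κ z = 1 := by
      have := (hasDerivAt_iter d 0 κ z).deriv
      rw [← this, Function.iterate_zero]
      exact deriv_id z
    rw [e1, e2]
    simp only [Function.iterate_zero, id_eq, sub_self, norm_zero, norm_one, one_mul]
    exact ⟨hη, hη, le_rfl, by simp⟩
  | succ j ih =>
    obtain ⟨C, hC1, hC⟩ := ih
    have hC0 : 0 < C := by linarith
    obtain ⟨B, hB⟩ : ∃ B : ℝ, B = d * d * 4 ^ d := ⟨_, rfl⟩
    have hB0 : 0 ≤ B := by rw [hB]; positivity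
    have hB1 : (d : ℝ) * 4 ^ (d - 1) ≤ B := by
      rw [hB]
      rcases Nat.eq_zero_or_pos d with h0 | h0
      · rw [h0]; simp
      have h1 : (1 : ℝ) ≤ d := by exact_mod_cast h0
      have h2 : (4 : ℝ) ^ (d - 1) ≤ 4 ^ d := pow_le_pow_right₀ (by norm_num) (by omega)
      have h3 : (0 : ℝ) < 4 ^ d := by positivity
      calc (d : ℝ) * 4 ^ (d - 1) ≤ d * 4 ^ d := by gcongr
        _ = 1 * (d * 4 ^ d) := by ring
        _ ≤ d * (d * 4 ^ d) := by gcongr
        _ = _ := by ring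
    have hB2 : (d : ℝ) * ((d - 1 : ℕ) * 4 ^ (d - 1 - 1)) ≤ B := by
      rw [hB]
      have h1 : ((d - 1 : ℕ) : ℝ) ≤ d := by exact_mod_cast Nat.sub_le d 1
      have h2 : (4 : ℝ) ^ (d - 1 - 1) ≤ 4 ^ d := pow_le_pow_right₀ (by norm_num) (by omega)
      calc (d : ℝ) * ((d - 1 : ℕ) * 4 ^ (d - 1 - 1)) ≤ d * (d * 4 ^ d) := by gcongr
        _ = _ := by ring
    have hC' : C ≤ 4 * (1 + B) * C ^ 2 := by nlinarith [mul_nonneg hB0 (sq_nonneg C)]
    refine ⟨4 * (1 + B) * C ^ 2, hC1.trans hC', fun κ h η hη hcl z hz => ?_⟩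
    have hη0 : 0 ≤ η := (norm_nonneg _).trans (hcl.2 0 (by norm_num)).1
    have hCη : C * η ≤ 1 / 2 := (by gcongr : C * η ≤ 4 * (1 + B) * C ^ 2 * η).trans hη
    obtain ⟨i1, i2, i3, i4⟩ := hC κ h η hCη hcl z (fun i hi => hz i (by omega))
    have hη2 : η ≤ 1 / 2 := by nlinarith
    -- the point `h ^ j z`
    have h3 : ‖h^[j] z‖ ≤ 3 := by
      rcases hz j (by omega) with h5 | h5
      · exact h5
      · have := norm_le_norm_add_norm_sub' (h^[j] z) ((fc d κ)^[j] z)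
        linarith
    have h4 : ‖(fc d κ)^[j] z‖ ≤ 4 := by
      have := norm_le_norm_add_norm_sub (h^[j] z) ((fc d κ)^[j] z)
      linarith
    have h34 : ‖h^[j] z‖ ≤ 4 := by linarith
    obtain ⟨k1, k2⟩ := hcl.2 _ h3
    refine ⟨?_, ?_, ?_, ?_⟩
    · rw [Function.iterate_succ_apply', Function.iterate_succ_apply']
      have e1 : h (h^[j] z) - fc d κ ((fc d κ)^[j] z) =
          (h (h^[j] z) - ((h^[j] z) ^ d + κ)) + ((h^[j] z) ^ d - ((fc d κ)^[j] z) ^ d) := by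
        show h (h^[j] z) - (((fc d κ)^[j] z) ^ d + κ) = _
        ring
      rw [e1]
      refine (norm_add_le _ _).trans ?_
      have e2 := Pool.Agent.H762R2.Rt.pow_lip h34 h4 d
      have e3 : ‖(h^[j] z) ^ d - ((fc d κ)^[j] z) ^ d‖ ≤ B * (C * η) := e2.trans (by gcongr)
      have e4 : η ≤ C * η := by nlinarith
      have e5 : 0 ≤ (1 + B) * (C * η) := by positivity
      have e6 : (1 + B) * (C * η) ≤ 4 * (1 + B) * C ^ 2 * η := by
        have : (1 + B) * (C * η) ≤ (1 + B) * (C * η) * C := le_mul_of_one_le_right e5 hC1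
        nlinarith
      linarith
    · rw [Function.iterate_succ', DD_succ]
      have hd1 : deriv (h ∘ h^[j]) z = deriv h (h^[j] z) * deriv (h^[j]) z :=
        deriv_comp z (hcl.1 _) ((hcl.1.iterate j) z)
      rw [hd1]
      have e1 : deriv h (h^[j] z) * deriv (h^[j]) z - DD d j κ z *
          (d * ((fc d κ)^[j] z) ^ (d - 1)) =
          ((deriv h (h^[j] z) - d * (h^[j] z) ^ (d - 1)) + d * ((h^[j] z) ^ (d - 1) -
            ((fc d κ)^[j] z) ^ (d - 1))) * deriv (h^[j]) z +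
          (d * ((fc d κ)^[j] z) ^ (d - 1)) * (deriv (h^[j]) z - DD d j κ z) := by ring
      rw [e1]
      have e2 := Pool.Agent.H762R2.Rt.pow_lip h34 h4 (d - 1)
      have e3 : ‖(d : ℂ) * ((h^[j] z) ^ (d - 1) - ((fc d κ)^[j] z) ^ (d - 1))‖ ≤ B * (C * η) := by
        rw [norm_mul, Complex.norm_natCast]
        calc (d : ℝ) * ‖(h^[j] z) ^ (d - 1) - ((fc d κ)^[j] z) ^ (d - 1)‖ ≤
              d * (((d - 1 : ℕ) : ℝ) * 4 ^ (d - 1 - 1) * ‖h^[j] z - (fc d κ)^[j] z‖) := by gcongr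
          _ ≤ d * (((d - 1 : ℕ) : ℝ) * 4 ^ (d - 1 - 1) * (C * η)) := by gcongr
          _ = (d * (((d - 1 : ℕ) : ℝ) * 4 ^ (d - 1 - 1))) * (C * η) := by ring
          _ ≤ B * (C * η) := by gcongr
      have e4 : ‖(d : ℂ) * ((fc d κ)^[j] z) ^ (d - 1)‖ ≤ B := by
        rw [norm_mul, Complex.norm_natCast, norm_pow]
        calc (d : ℝ) * ‖(fc d κ)^[j] z‖ ^ (d - 1) ≤ d * 4 ^ (d - 1) := by gcongr
          _ ≤ B := hB1
      refine (norm_add_le _ _).trans ?_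
      rw [norm_mul, norm_mul (_ * _)]
      calc _ ≤ (η + B * (C * η)) * C + B * (C * η) := by
            gcongr
            exact (norm_add_le _ _).trans (add_le_add k2 e3)
        _ ≤ 4 * (1 + B) * C ^ 2 * η := by
            have f1 : η * C ≤ C ^ 2 * η := by nlinarith [mul_nonneg hη0 hC0.le]
            have f2 : B * (C * η) ≤ B * C ^ 2 * η := by
              have : B * (C * η) ≤ B * (C * η) * C :=
                le_mul_of_one_le_right (by positivity) hC1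
              nlinarith
            have f3 : 0 ≤ C ^ 2 * η := by positivity
            have f4 : 0 ≤ B * C ^ 2 * η := by positivity
            nlinarith
    · rw [Function.iterate_succ']
      have hd1 : deriv (h ∘ h^[j]) z = deriv h (h^[j] z) * deriv (h^[j]) z :=
        deriv_comp z (hcl.1 _) ((hcl.1.iterate j) z)
      rw [hd1, norm_mul]
      have e1 : ‖deriv h (h^[j] z)‖ ≤ 1 + B := by
        have f1 := norm_le_norm_add_norm_sub' (deriv h (h^[j] z)) (d * (h^[j] z) ^ (d - 1))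
        have f2 : ‖(d : ℂ) * (h^[j] z) ^ (d - 1)‖ ≤ B := by
          rw [norm_mul, Complex.norm_natCast, norm_pow]
          calc (d : ℝ) * ‖h^[j] z‖ ^ (d - 1) ≤ d * 4 ^ (d - 1) := by gcongr
            _ ≤ B := hB1
        linarith
      calc ‖deriv h (h^[j] z)‖ * ‖deriv (h^[j]) z‖ ≤ (1 + B) * C := by gcongr
        _ ≤ 4 * (1 + B) * C ^ 2 := by nlinarith [mul_nonneg hB0 hC0.le, mul_nonneg hB0 (sq_nonneg C)]
    · intro i hi
      rcases Nat.lt_succ_iff_lt_or_eq.1 hi with h5 | h5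
      · exact i4 i h5
      · rw [h5]; exact h3

end Pool.Agent.N772.PC
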