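import Pool.Agent.N772.PC.Inc

/-!
# The renormalised maps are polynomial-like of degree `d`
-/

set_option autoImplicit false

open Set Filter Metric MeasureTheory Topology Complex

namespace Pool.Agent.N772.PC

open N62a1eb23
open Pool.Agent.H712R2 (P fc P_zero P_succ mem_multibrot_iff)
open Pool.Agent.N673.QC (DD DD_succ hasDerivAt_iter cont_iter cont_DD DD_cycle)
open Pool.Agent.H462R2.AD (hyp)

variable {d n : ℕ} {c l m κ : ℂ} {τ : ℝ}

/-- `h` is a proper map of degree at most `d` of `U` onto the larger set `V`, with the only critical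
point `0`. -/
def PolyLike (d : ℕ) (h : ℂ → ℂ) (U V : Set ℂ) : Prop :=
  IsOpen U ∧ Bornology.IsBounded U ∧ closure U ⊆ V ∧ h '' U = V ∧
    (∀ K ⊆ V, IsCompact K → IsCompact {z | z ∈ U ∧ h z ∈ K}) ∧
    (∀ w ∈ V, {z | z ∈ U ∧ h z = w}.encard ≤ d) ∧ ∀ z ∈ U, deriv h z = 0 → z = 0

/-- the renormalised map as a function of `z ^ d` -/
noncomputable def HH (d n : ℕ) (b m : ℂ) : ℂ → ℂ := fun y => (fc d b)^[n - 1] (b + m ^ d * y) / m

theorem re_HH (hn : 1 ≤ n) (z : ℂ) : re d n c l m κ z = HH d n (c + l * κ) m (z ^ d) := by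
  unfold re HH
  obtain ⟨k, rfl⟩ : ∃ k, n = k + 1 := ⟨n - 1, by omega⟩
  rw [Function.iterate_succ_apply, Nat.add_sub_cancel]
  congr 2
  show (m * z) ^ d + (c + l * κ) = _
  ring

theorem HH_diff (d n : ℕ) (b m : ℂ) : Differentiable ℂ (HH d n b m) := by
  unfold HH
  exact ((diff_fc d (n - 1) b).comp ((differentiable_id.const_mul _).const_add b)).div_const m

theorem re_HH_deriv (hn : 1 ≤ n) (z : ℂ) : deriv (re d n c l m κ) z =
    deriv (HH d n (c + l * κ) m) (z ^ d) * (d * z ^ (d - 1)) := by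
  have h1 : re d n c l m κ = fun z => HH d n (c + l * κ) m (z ^ d) := funext fun z => re_HH hn z
  rw [h1]
  exact ((HH_diff d n _ m (z ^ d)).hasDerivAt.comp z (hasDerivAt_pow d z)).deriv

/-- the derivative is close to `1` -/
theorem HH_close (hd : 2 ≤ d) (hn : 1 ≤ n) {ρ η : ℝ} (hρ : 1 ≤ ρ)
    (h : ∀ z : ℂ, ‖z‖ ≤ ρ → ‖deriv (re d n c l m κ) z - d * z ^ (d - 1)‖ ≤ η) {y : ℂ}
    (hy : ‖y‖ ≤ ρ ^ d) : ‖deriv (HH d n (c + l * κ) m) y - 1‖ ≤ η := by
  have hdR : (2 : ℝ) ≤ d := by exact_mod_cast hd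
  have h1 : ∀ y : ℂ, 1 ≤ ‖y‖ → ‖y‖ ≤ ρ ^ d → ‖deriv (HH d n (c + l * κ) m) y - 1‖ ≤ η := by
    intro y h2 h3
    obtain ⟨z, hz⟩ := IsAlgClosed.exists_pow_nat_eq y (by omega : 0 < d)
    have hzn : ‖z‖ ^ d = ‖y‖ := by rw [← norm_pow, hz]
    have hz1 : 1 ≤ ‖z‖ := by
      by_contra hcon
      push Not at hcon
      have : ‖z‖ ^ d < 1 := pow_lt_one₀ (norm_nonneg _) hcon (by omega)
      linarith
    have hz2 : ‖z‖ ≤ ρ := by
      rw [← pow_le_pow_iff_left₀ (norm_nonneg _) (by linarith) (by omega : d ≠ 0), hzn]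
      exact h3
    have h4 := h z hz2
    rw [re_HH_deriv hn, hz] at h4
    have e : deriv (HH d n (c + l * κ) m) y * (d * z ^ (d - 1)) - d * z ^ (d - 1) =
        (deriv (HH d n (c + l * κ) m) y - 1) * (d * z ^ (d - 1)) := by ring
    rw [e, norm_mul, norm_mul, Complex.norm_natCast, norm_pow] at h4
    have h5 : 1 ≤ (d : ℝ) * ‖z‖ ^ (d - 1) := by
      have : 1 ≤ ‖z‖ ^ (d - 1) := one_le_pow₀ hz1
      nlinarith
    exact (le_mul_of_one_le_right (norm_nonneg _) h5).trans h4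
  rcases le_total 1 ‖y‖ with h2 | h2
  · exact h1 y h2 hy
  · have hdiff : Differentiable ℂ (fun y => deriv (HH d n (c + l * κ) m) y - 1) :=
      ((HH_diff d n (c + l * κ) m).deriv).sub_const 1
    refine Complex.norm_le_of_forall_mem_frontier_norm_le (U := ball (0 : ℂ) 1)
      isBounded_ball hdiff.diffContOnCl (fun x hx => ?_) ?_
    · rw [frontier_ball (0 : ℂ) one_ne_zero, mem_sphere_zero_iff_norm] at hx
      exact h1 x hx.ge (hx.le.trans (one_le_pow₀ hρ))
    · rw [closure_ball (0 : ℂ) one_ne_zero, mem_closedBall_zero_iff]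
      exact h2

/-- the renormalised map is injective in terms of `z ^ d` -/
theorem HH_inj {ρ η : ℝ} (hη : η < 1) {b : ℂ}
    (h : ∀ y : ℂ, ‖y‖ ≤ ρ → ‖deriv (HH d n b m) y - 1‖ ≤ η) {x y : ℂ}
    (hx : ‖x‖ ≤ ρ) (hy : ‖y‖ ≤ ρ) (hxy : HH d n b m x = HH d n b m y) : x = y := by
  have h1 := (convex_closedBall (0 : ℂ) ρ).norm_image_sub_le_of_norm_deriv_le
    (f := fun y => HH d n b m y - y) (C := η) (x := y) (y := x) (fun z _ =>
      ((HH_diff d n b m) z).sub differentiableAt_id) (fun z hz => by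
      have h2 : deriv (fun y => HH d n b m y - y) z = deriv (HH d n b m) z - 1 :=
        (((HH_diff d n b m) z).hasDerivAt.sub (hasDerivAt_id z)).deriv
      rw [h2]
      exact h z (by rwa [mem_closedBall_zero_iff] at hz)) (by simpa using hy) (by simpa using hx)
  simp only [hxy] at h1
  have h2 : HH d n b m y - x - (HH d n b m y - y) = -(x - y) := by ring
  rw [h2, norm_neg] at h1
  by_contra hne
  have : 0 < ‖x - y‖ := norm_pos_iff.2 (sub_ne_zero.2 hne)
  nlinarith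

/-- **The renormalised map is polynomial-like.** -/
theorem polylike (hd : 2 ≤ d) (hn : 1 ≤ n) {ρ η : ℝ} (hρ : 4 ≤ ρ) (hη : η ≤ 1 / 4)
    (hκ : ‖κ‖ ≤ ρ - 1) (h0 : ∀ z : ℂ, ‖z‖ ≤ ρ → ‖re d n c l m κ z - (z ^ d + κ)‖ ≤ η)
    (h1 : ∀ z : ℂ, ‖z‖ ≤ ρ → ‖deriv (re d n c l m κ) z - d * z ^ (d - 1)‖ ≤ η) (hm : m ≠ 0) :
    ∃ U : Set ℂ, (0 : ℂ) ∈ U ∧ (∀ z ∈ U, ‖z‖ ^ d ≤ 2 * ρ) ∧
      PolyLike d (re d n c l m κ) U (ball 0 ρ) := by
  obtain ⟨h, hh⟩ : ∃ h, h = re d n c l m κ := ⟨_, rfl⟩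
  rw [← hh] at h0 h1 ⊢
  have hhd : Differentiable ℂ h := by rw [hh]; exact re_diff hm
  have hhc : Continuous h := hhd.continuous
  have hη0 : 0 ≤ η := (norm_nonneg _).trans (h0 0 (by simp; linarith))
  have hρ2 : 2 * ρ < ρ ^ d := by
    have : ρ ^ 2 ≤ ρ ^ d := pow_le_pow_right₀ (by linarith) hd
    nlinarith
  have hsmall : ∀ z : ℂ, ‖z‖ ≤ ρ → ‖h z‖ ≤ ρ → ‖z‖ ^ d ≤ 2 * ρ := by
    intro z hz hz2
    have h2 := h0 z hz
    have h3 : ‖z ^ d‖ ≤ ‖h z‖ + ‖h z - (z ^ d + κ)‖ + ‖κ‖ := by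
      have e : z ^ d = h z - (h z - (z ^ d + κ)) - κ := by ring
      calc ‖z ^ d‖ = ‖h z - (h z - (z ^ d + κ)) - κ‖ := by rw [← e]
        _ ≤ ‖h z - (h z - (z ^ d + κ))‖ + ‖κ‖ := norm_sub_le _ _
        _ ≤ _ := by gcongr; exact norm_sub_le _ _
    rw [norm_pow] at h3
    linarith
  have hlt : ∀ z : ℂ, ‖z‖ ^ d ≤ 2 * ρ → ‖z‖ < ρ := by
    intro z hz
    rw [← pow_lt_pow_iff_left₀ (norm_nonneg _) (by linarith) (by omega : d ≠ 0)]
    linarith
  obtain ⟨U, hU⟩ : ∃ U : Set ℂ, U = {z | ‖z‖ < ρ ∧ ‖h z‖ < ρ} := ⟨_, rfl⟩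
  have hUo : IsOpen U := by
    rw [hU]
    exact (isOpen_lt continuous_norm continuous_const).inter
      (isOpen_lt hhc.norm continuous_const)
  have hUcl : closure U ⊆ {z | ‖z‖ ≤ ρ ∧ ‖h z‖ ≤ ρ} := by
    apply closure_minimal
    · rw [hU]
      rintro z ⟨h2, h3⟩
      exact ⟨h2.le, h3.le⟩
    · exact (isClosed_le continuous_norm continuous_const).inter
        (isClosed_le hhc.norm continuous_const)
  have hUV : closure U ⊆ ball 0 ρ := by
    intro z hz
    obtain ⟨h2, h3⟩ := hUcl hz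
    rw [mem_ball_zero_iff]
    exact hlt z (hsmall z h2 h3)
  have h00 : (0 : ℂ) ∈ U := by
    rw [hU]
    refine ⟨by rw [norm_zero]; linarith, ?_⟩
    have h2 := h0 0 (by rw [norm_zero]; linarith)
    rw [zero_pow (by omega), zero_add] at h2
    have := norm_le_norm_add_norm_sub' (h 0) κ
    linarith
  -- properness
  have hprop : ∀ K ⊆ ball (0 : ℂ) ρ, IsCompact K → IsCompact {z | z ∈ U ∧ h z ∈ K} := by
    intro K hK hKc
    have h2 : {z | z ∈ U ∧ h z ∈ K} = closedBall 0 ρ ∩ h ⁻¹' K := by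
      ext z
      constructor
      · rintro ⟨h3, h4⟩
        rw [hU] at h3
        exact ⟨by rw [mem_closedBall_zero_iff]; exact h3.1.le, h4⟩
      · rintro ⟨h3, h4⟩
        rw [mem_closedBall_zero_iff] at h3
        have h5 := hK h4
        rw [mem_ball_zero_iff] at h5
        refine ⟨?_, h4⟩
        rw [hU]
        exact ⟨hlt z (hsmall z h3 h5.le), h5⟩
    rw [h2]
    exact (isCompact_closedBall (0 : ℂ) ρ).inter_right (hKc.isClosed.preimage hhc)
  -- the critical points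
  have hclose : ∀ y : ℂ, ‖y‖ ≤ ρ ^ d → ‖deriv (HH d n (c + l * κ) m) y - 1‖ ≤ η := fun y hy =>
    HH_close hd hn (by linarith) (by rw [← hh]; exact h1) hy
  have hcrit : ∀ z ∈ U, deriv h z = 0 → z = 0 := by
    intro z hz h2
    rw [hU] at hz
    rw [hh, re_HH_deriv hn] at h2
    rcases mul_eq_zero.1 h2 with h3 | h3
    · have h4 := hclose (z ^ d) (by rw [norm_pow]; exact pow_le_pow_left₀ (norm_nonneg _) hz.1.le d)
      rw [h3, zero_sub, norm_neg, norm_one] at h4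
      linarith
    · rcases mul_eq_zero.1 h3 with h4 | h4
      · have : d = 0 := by exact_mod_cast h4
        omega
      · exact eq_zero_of_pow_eq_zero h4
  -- surjectivity
  have hsurj : h '' U = ball 0 ρ := by
    apply Subset.antisymm
    · rintro _ ⟨z, hz, rfl⟩
      rw [hU] at hz
      rw [mem_ball_zero_iff]
      exact hz.2
    · have hopen : IsOpen (h '' U) := by
        have han : AnalyticOnNhd ℂ h univ := hhd.differentiableOn.analyticOnNhd isOpen_univ
        rcases han.is_constant_or_isOpen isPreconnected_univ with ⟨w, hw⟩ | hop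
        · exfalso
          have h2 := h0 (ρ : ℂ) (by
            rw [Complex.norm_real, Real.norm_eq_abs, abs_of_nonneg (by linarith)])
          have h3 := h0 0 (by rw [norm_zero]; linarith)
          rw [hw _ (mem_univ _)] at h2 h3
          rw [zero_pow (by omega), zero_add] at h3
          have h4 : ‖(ρ : ℂ) ^ d‖ ≤ η + η := by
            have e : (ρ : ℂ) ^ d = (w - κ) - (w - ((ρ : ℂ) ^ d + κ)) := by ring
            rw [e]
            exact (norm_sub_le _ _).trans (add_le_add h3 h2)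
          rw [norm_pow, Complex.norm_real, Real.norm_eq_abs, abs_of_nonneg (by linarith)] at h4
          linarith
        · exact hop U (subset_univ _) hUo
      have hclosed : closure (h '' U) ∩ ball 0 ρ ⊆ h '' U := by
        rintro w ⟨hw, hwρ⟩
        have hUb : IsCompact (closure U) :=
          (isCompact_closedBall (0 : ℂ) ρ).of_isClosed_subset isClosed_closure
            (hUV.trans ball_subset_closedBall)
        have h2 : closure (h '' U) ⊆ h '' closure U := by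
          apply closure_minimal (image_mono subset_closure)
          exact (hUb.image hhc).isClosed
        obtain ⟨z, hz, rfl⟩ := h2 hw
        obtain ⟨h3, h4⟩ := hUcl hz
        refine ⟨z, ?_, rfl⟩
        rw [hU]
        rw [mem_ball_zero_iff] at hwρ
        exact ⟨hlt z (hsmall z h3 h4), hwρ⟩
      have hpre : IsPreconnected (ball (0 : ℂ) ρ) := (convex_ball _ _).isPreconnected
      have hne : (ball (0 : ℂ) ρ ∩ h '' U).Nonempty := by
        refine ⟨h 0, ?_, 0, h00, rfl⟩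
        rw [hU] at h00
        rw [mem_ball_zero_iff]
        exact h00.2
      by_contra hcon
      rw [not_subset] at hcon
      obtain ⟨w, hw1, hw2⟩ := hcon
      have h5 := hpre (h '' U) (closure (h '' U))ᶜ hopen isClosed_closure.isOpen_compl (by
        intro x hx
        by_cases hx2 : x ∈ closure (h '' U)
        · exact Or.inl (hclosed ⟨hx2, hx⟩)
        · exact Or.inr hx2) hne ⟨w, hw1, fun h6 => hw2 (hclosed ⟨h6, hw1⟩)⟩
      obtain ⟨x, -, hx1, hx2⟩ := h5
      exact hx2 (subset_closure hx1)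
  refine ⟨U, h00, ?_, hUo, ?_, hUV, hsurj, hprop, ?_, hcrit⟩
  · intro z hz
    rw [hU] at hz
    exact hsmall z hz.1.le hz.2.le
  · exact (isBounded_ball (x := (0 : ℂ)) (r := ρ)).subset (subset_closure.trans hUV)
  · -- the degree
    intro w hw
    rw [← hsurj] at hw
    obtain ⟨z₀, hz₀, rfl⟩ := hw
    have hsub : {z | z ∈ U ∧ h z = h z₀} ⊆ ((Polynomial.nthRoots d (z₀ ^ d)).toFinset : Set ℂ) := by
      rintro z ⟨hz, hzz⟩
      rw [hU] at hz hz₀
      rw [Finset.mem_coe, Multiset.mem_toFinset, Polynomial.mem_nthRoots (by omega)]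
      rw [hh, re_HH hn, re_HH hn] at hzz
      exact HH_inj (ρ := ρ ^ d) (by linarith) hclose
        (by rw [norm_pow]; exact pow_le_pow_left₀ (norm_nonneg _) hz.1.le d)
        (by rw [norm_pow]; exact pow_le_pow_left₀ (norm_nonneg _) hz₀.1.le d) hzz
    refine (Set.encard_le_encard hsub).trans ?_
    rw [Set.encard_coe_eq_coe_finsetCard]
    have h6 := (Multiset.toFinset_card_le (Polynomial.nthRoots d (z₀ ^ d))).trans
      (Polynomial.card_nthRoots d (z₀ ^ d))
    exact_mod_cast h6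

/-- **The renormalised map is polynomial-like**, in the original coordinate. -/
theorem polylike' (hd : 2 ≤ d) (hn : 1 ≤ n) {ρ η : ℝ} (hρ : 4 ≤ ρ) (hη : η ≤ 1 / 4)
    (hκ : ‖κ‖ ≤ ρ - 1) (h0 : ∀ z : ℂ, ‖z‖ ≤ ρ → ‖re d n c l m κ z - (z ^ d + κ)‖ ≤ η)
    (h1 : ∀ z : ℂ, ‖z‖ ≤ ρ → ‖deriv (re d n c l m κ) z - d * z ^ (d - 1)‖ ≤ η) (hm : m ≠ 0) :
    ∃ U : Set ℂ, (0 : ℂ) ∈ U ∧ (∀ z ∈ U, ‖z‖ ^ d ≤ 2 * ρ * ‖m‖ ^ d) ∧
      PolyLike d ((fc d (c + l * κ))^[n]) U (ball 0 (ρ * ‖m‖)) := by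
  obtain ⟨U, hU0, hUs, hUo, hUb, hUV, hsurj, hprop, hdeg, hcrit⟩ :=
    polylike hd hn hρ hη hκ h0 h1 hm
  have hmn : 0 < ‖m‖ := norm_pos_iff.2 hm
  have hF : ∀ z, (fc d (c + l * κ))^[n] (m * z) = m * re d n c l m κ z := by
    intro z
    unfold re
    field_simp
  have hbij : ∀ z, m * (z / m) = z := fun z => by field_simp
  -- the homeomorphism
  obtain ⟨e, he⟩ : ∃ e : ℂ ≃ₜ ℂ, e = Homeomorph.mulLeft₀ m hm := ⟨_, rfl⟩
  have hev : ∀ z, e z = m * z := fun z => by rw [he]; rfl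
  have hes : ∀ z, e.symm z = z / m := fun z => by
    rw [Homeomorph.symm_apply_eq, hev, hbij]
  have hball : e '' ball 0 ρ = ball 0 (ρ * ‖m‖) := by
    ext w
    constructor
    · rintro ⟨z, hz, rfl⟩
      rw [mem_ball_zero_iff] at hz ⊢
      rw [hev, norm_mul, mul_comm]
      gcongr
    · intro hw
      rw [mem_ball_zero_iff] at hw
      refine ⟨w / m, ?_, by rw [hev, hbij]⟩
      rw [mem_ball_zero_iff, norm_div, div_lt_iff₀ hmn]
      exact hw
  refine ⟨e '' U, ⟨0, hU0, by rw [hev, mul_zero]⟩, ?_, e.isOpenMap U hUo, ?_, ?_, ?_, ?_, ?_, ?_⟩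
  · rintro _ ⟨z, hz, rfl⟩
    rw [hev, norm_mul, mul_pow, mul_comm]
    gcongr
    exact hUs z hz
  · apply (isBounded_ball (x := (0 : ℂ)) (r := ρ * ‖m‖)).subset
    rw [← hball]
    exact image_mono (subset_closure.trans hUV)
  · rw [← e.image_closure, ← hball]
    exact image_mono hUV
  · rw [← hball, ← hsurj, image_image, image_image]
    apply image_congr
    intro z _
    rw [hev, hF, hev]
  · intro K hK hKc
    have h2 : {z | z ∈ e '' U ∧ (fc d (c + l * κ))^[n] z ∈ K} =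
        e '' {z | z ∈ U ∧ re d n c l m κ z ∈ e.symm '' K} := by
      ext w
      constructor
      · rintro ⟨⟨z, hz, rfl⟩, hw⟩
        refine ⟨z, ⟨hz, (fc d (c + l * κ))^[n] (e z), hw, ?_⟩, rfl⟩
        rw [hev, hF, hes]
        field_simp
      · rintro ⟨z, ⟨hz, x, hx, hxz⟩, rfl⟩
        refine ⟨⟨z, hz, rfl⟩, ?_⟩
        rw [hev, hF, ← hxz, hes, hbij]
        exact hx
    rw [h2]
    apply IsCompact.image _ e.continuous
    apply hprop
    · rintro _ ⟨x, hx, rfl⟩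
      have h3 := hK hx
      rw [← hball] at h3
      obtain ⟨y, hy, rfl⟩ := h3
      rw [e.symm_apply_apply]
      exact hy
    · exact hKc.image e.symm.continuous
  · intro w hw
    rw [← hball] at hw
    obtain ⟨w', hw', rfl⟩ := hw
    have h2 : {z | z ∈ e '' U ∧ (fc d (c + l * κ))^[n] z = e w'} =
        e '' {z | z ∈ U ∧ re d n c l m κ z = w'} := by
      ext x
      constructor
      · rintro ⟨⟨z, hz, rfl⟩, hw⟩
        refine ⟨z, ⟨hz, ?_⟩, rfl⟩
        rw [hev, hF, hev] at hw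
        exact mul_left_cancel₀ hm hw
      · rintro ⟨z, ⟨hz, hx⟩, rfl⟩
        refine ⟨⟨z, hz, rfl⟩, ?_⟩
        rw [hev, hF, hx, hev]
    rw [h2, e.injective.encard_image]
    exact hdeg w' hw'
  · rintro _ ⟨z, hz, rfl⟩ hz0
    have h3 := re_deriv (d := d) (n := n) (c := c) (l := l) (κ := κ) hm 1 z
    rw [Function.iterate_one, mul_one] at h3
    rw [hev, ← h3] at hz0
    rw [hev, hcrit z hz hz0, mul_zero]

end Pool.Agent.N772.PC
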