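import Pool.Agent.N772.PC.Pert

/-!
# Robustness of attracting cycles and of escape to infinity
-/

set_option autoImplicit false

open Set Filter Metric MeasureTheory Topology Complex

namespace Pool.Agent.N772.PC

open N62a1eb23
open Pool.Agent.H712R2 (P fc P_zero P_succ mem_multibrot_iff)
open Pool.Agent.N673.QC (DD DD_succ hasDerivAt_iter cont_iter cont_DD DD_cycle)
open Pool.Agent.H462R2.AD (hyp)

/-- the attractor seen by the critical orbit -/
theorem attractor {d : ℕ} (hd : 2 ≤ d) {κ : ℂ} (h : κ ∈ hyp d) : ∃ (p : ℕ) (z : ℂ), 0 < p ∧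
    (fc d κ)^[p] z = z ∧ ‖DD d p κ z‖ < 1 ∧ (∀ i, ‖(fc d κ)^[i] z‖ ≤ 2) ∧
    Tendsto (fun k : ℕ => (fc d κ)^[p * k] 0) atTop (𝓝 z) := by
  obtain ⟨p, z, hz⟩ := h
  obtain ⟨l, hl⟩ := Pool.Agent.TH363.CD.crit_conv hd hz
  have hl' : Tendsto (fun k : ℕ => (fc d κ)^[p * k] 0) atTop (𝓝 ((fc d κ)^[l] z)) := hl
  obtain ⟨hp, hper, -, hlt⟩ := hz
  have hper' : (fc d κ)^[p] z = z := hper
  have hM : κ ∈ multibrotSet d := interior_subset
    (Pool.Agent.R240.Alm.att_interior hd ⟨p, z, hp, hper, ((hasDerivAt_iter d p κ z)).differentiableAt,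
      hlt⟩)
  have hb := (mem_multibrot_iff hd κ).1 hM
  refine ⟨p, (fc d κ)^[l] z, hp, ?_, ?_, ?_, hl'⟩
  · rw [← Function.iterate_add_apply, add_comm, Function.iterate_add_apply, hper']
  · rw [DD_cycle d hp hper' l, ← (hasDerivAt_iter d p κ z).deriv]
    exact hlt
  · intro i
    have h1 : Tendsto (fun k : ℕ => (fc d κ)^[i] ((fc d κ)^[p * k] 0)) atTop
        (𝓝 ((fc d κ)^[i] ((fc d κ)^[l] z))) :=
      ((hasDerivAt_iter d i κ ((fc d κ)^[l] z)).continuousAt.tendsto).comp hl'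
    refine le_of_tendsto h1.norm (Eventually.of_forall fun k => ?_)
    rw [← Function.iterate_add_apply]
    exact hb _

/-- **Attracting cycles are robust.** -/
theorem att_robust {d : ℕ} (hd : 2 ≤ d) {κ₀ : ℂ} (h₀ : κ₀ ∈ hyp d) :
    ∃ η : ℝ, 0 < η ∧ ∀ᶠ κ in 𝓝 κ₀, ∀ h : ℂ → ℂ, Cl d κ h η →
      (∃ (p : ℕ) (z : ℂ), 0 < p ∧ h^[p] z = z ∧ ‖deriv (h^[p]) z‖ < 1) ∧ ∀ j, ‖h^[j] 0‖ ≤ 3 := by
  obtain ⟨p, z₁, hp, hper, hlt, hbd, hlim⟩ := attractor hd h₀
  obtain ⟨q, hq1, hq2⟩ := exists_between hlt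
  obtain ⟨q', hq'1, hq'2⟩ := exists_between hq1
  have hq'0 : 0 ≤ q' := (norm_nonneg _).trans hq'1.le
  have hq0 : 0 ≤ q := hq'0.trans hq'2.le
  -- the neighbourhood of the attractor
  have h1 : ∀ᶠ x : ℂ × ℂ in 𝓝 (κ₀, z₁), ‖DD d p x.1 x.2‖ < q' :=
    ((cont_DD d p).norm.tendsto (κ₀, z₁)).eventually_lt_const hq'1
  have h2 : ∀ᶠ x : ℂ × ℂ in 𝓝 (κ₀, z₁), ∀ i ∈ Finset.range p, ‖(fc d x.1)^[i] x.2‖ < 5 / 2 := by
    rw [Finset.eventually_all]
    intro i _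
    exact ((cont_iter d i).norm.tendsto (κ₀, z₁)).eventually_lt_const (by
      have := hbd i
      simp only
      linarith)
  obtain ⟨r, hr, hr2⟩ := Metric.eventually_nhds_iff.1 (h1.and h2)
  obtain ⟨s, hs⟩ : ∃ s : ℝ, s = min (r / 2) (1 / 2) := ⟨_, rfl⟩
  have hs0 : 0 < s := by rw [hs]; positivity
  have hsr : s ≤ r / 2 := by rw [hs]; exact min_le_left _ _
  -- the return
  have h3 : ∀ᶠ κ in 𝓝 κ₀, ‖(fc d κ)^[p] z₁ - z₁‖ < (1 - q) * s / 2 := by
    have hc : Continuous fun c : ℂ => ‖(fc d c)^[p] z₁ - z₁‖ :=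
      (((cont_iter d p).comp (continuous_id.prodMk continuous_const)).sub continuous_const).norm
    have h0 := hc.tendsto κ₀
    rw [hper, sub_self, norm_zero] at h0
    refine h0.eventually_lt_const ?_
    have : 0 < 1 - q := by linarith
    positivity
  -- the critical orbit
  obtain ⟨k, hk⟩ := ((Metric.tendsto_nhds.1 hlim) (s / 4) (by positivity)).exists
  rw [dist_eq_norm] at hk
  have h4 : ∀ᶠ κ in 𝓝 κ₀, ‖(fc d κ)^[p * k] 0 - z₁‖ < s / 4 := by
    have hc : Continuous fun c : ℂ => ‖(fc d c)^[p * k] 0 - z₁‖ :=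
      (((cont_iter d (p * k)).comp (continuous_id.prodMk continuous_const)).sub
        continuous_const).norm
    exact (hc.tendsto κ₀).eventually_lt_const hk
  have hM : κ₀ ∈ multibrotSet d := interior_subset (Pool.Agent.R240.Alm.att_interior hd h₀)
  have hb := (mem_multibrot_iff hd κ₀).1 hM
  have h5 : ∀ᶠ κ in 𝓝 κ₀, ∀ i ∈ Finset.range (p * k + 1), ‖(fc d κ)^[i] 0‖ < 5 / 2 := by
    rw [Finset.eventually_all]
    intro i _
    have hc : Continuous fun c : ℂ => ‖(fc d c)^[i] 0‖ :=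
      ((cont_iter d i).comp (continuous_id.prodMk continuous_const)).norm
    exact (hc.tendsto κ₀).eventually_lt_const (by
      have := hb i
      simp only [P] at this
      linarith)
  obtain ⟨C₁, hC₁1, hC₁⟩ := iter_close d p
  obtain ⟨C₂, hC₂1, hC₂⟩ := iter_close d (p * k)
  have hq3 : 0 < 1 - q := by linarith
  have hq4 : 0 < q - q' := by linarith
  obtain ⟨η, hη⟩ : ∃ η : ℝ, η = min (min (1 / (2 * C₁)) (1 / (2 * C₂)))
      (min (min ((q - q') / C₁) ((1 - q) * s / 2 / C₁)) (s / 4 / C₂)) := ⟨_, rfl⟩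
  have hC₁0 : 0 < C₁ := by linarith
  have hC₂0 : 0 < C₂ := by linarith
  have hη0 : 0 < η := by rw [hη]; positivity
  have n1 : C₁ * η ≤ 1 / 2 := by
    have : η ≤ 1 / (2 * C₁) := by rw [hη]; exact (min_le_left _ _).trans (min_le_left _ _)
    calc C₁ * η ≤ C₁ * (1 / (2 * C₁)) := by gcongr
      _ = 1 / 2 := by field_simp
  have n2 : C₂ * η ≤ 1 / 2 := by
    have : η ≤ 1 / (2 * C₂) := by rw [hη]; exact (min_le_left _ _).trans (min_le_right _ _)
    calc C₂ * η ≤ C₂ * (1 / (2 * C₂)) := by gcongr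
      _ = 1 / 2 := by field_simp
  have n3 : C₁ * η ≤ q - q' := by
    have : η ≤ (q - q') / C₁ := by
      rw [hη]; exact (min_le_right _ _).trans ((min_le_left _ _).trans (min_le_left _ _))
    calc C₁ * η ≤ C₁ * ((q - q') / C₁) := by gcongr
      _ = _ := by field_simp
  have n4 : C₁ * η ≤ (1 - q) * s / 2 := by
    have : η ≤ (1 - q) * s / 2 / C₁ := by
      rw [hη]; exact (min_le_right _ _).trans ((min_le_left _ _).trans (min_le_right _ _))
    calc C₁ * η ≤ C₁ * ((1 - q) * s / 2 / C₁) := by gcongr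
      _ = _ := by field_simp
  have n5 : C₂ * η ≤ s / 4 := by
    have : η ≤ s / 4 / C₂ := by rw [hη]; exact (min_le_right _ _).trans (min_le_right _ _)
    calc C₂ * η ≤ C₂ * (s / 4 / C₂) := by gcongr
      _ = _ := by field_simp
  refine ⟨η, hη0, ?_⟩
  filter_upwards [h3, h4, h5, ball_mem_nhds κ₀ hr] with κ e3 e4 e5 hκ h hcl
  have hin : ∀ z ∈ closedBall z₁ s, ‖DD d p κ z‖ < q' ∧
      ∀ i < p, ‖h^[i] z‖ ≤ 3 ∨ ‖(fc d κ)^[i] z‖ ≤ 5 / 2 := by
    intro z hz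
    have h6 := hr2 (y := (κ, z)) (by
      rw [Prod.dist_eq]
      refine max_lt hκ ?_
      rw [mem_closedBall] at hz
      exact hz.trans_lt (by linarith))
    exact ⟨h6.1, fun i hi => Or.inr (h6.2 i (Finset.mem_range.2 hi)).le⟩
  have hder : ∀ z ∈ closedBall z₁ s, ‖deriv (h^[p]) z‖ ≤ q := by
    intro z hz
    obtain ⟨g1, g2⟩ := hin z hz
    obtain ⟨-, g3, -⟩ := hC₁ κ h η n1 hcl z g2
    have := norm_le_norm_add_norm_sub' (deriv (h^[p]) z) (DD d p κ z)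
    linarith
  have hdiff : Differentiable ℂ (h^[p]) := hcl.1.iterate p
  have hret : ‖h^[p] z₁ - z₁‖ ≤ (1 - q) * s := by
    obtain ⟨g1, g2⟩ := hin z₁ (mem_closedBall_self hs0.le)
    obtain ⟨g3, -⟩ := hC₁ κ h η n1 hcl z₁ g2
    calc ‖h^[p] z₁ - z₁‖ = ‖(h^[p] z₁ - (fc d κ)^[p] z₁) + ((fc d κ)^[p] z₁ - z₁)‖ := by
          congr 1; ring
      _ ≤ C₁ * η + (1 - q) * s / 2 := (norm_add_le _ _).trans (add_le_add g3 e3.le)
      _ ≤ (1 - q) * s := by linarith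
  have hmaps : MapsTo (h^[p]) (closedBall z₁ s) (closedBall z₁ s) := by
    intro z hz
    have h6 := (convex_closedBall z₁ s).norm_image_sub_le_of_norm_deriv_le
      (f := h^[p]) (C := q) (x := z₁) (y := z) (fun x _ => hdiff x)
      (fun x hx => hder x hx) (mem_closedBall_self hs0.le) hz
    rw [mem_closedBall, dist_eq_norm] at hz ⊢
    calc ‖h^[p] z - z₁‖ = ‖(h^[p] z - h^[p] z₁) + (h^[p] z₁ - z₁)‖ := by
          rw [sub_add_sub_cancel]
      _ ≤ ‖h^[p] z - h^[p] z₁‖ + ‖h^[p] z₁ - z₁‖ := norm_add_le _ _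
      _ ≤ q * ‖z - z₁‖ + (1 - q) * s := add_le_add h6 hret
      _ ≤ q * s + (1 - q) * s := by
          have := mul_le_mul_of_nonneg_left hz hq0
          linarith
      _ = s := by ring
  obtain ⟨z, hz, g4, g5⟩ := Pool.Agent.H749R2.Hyp.fixed_of_contr hs0.le hq0 hq2 hdiff hmaps hder
  refine ⟨⟨p, z, hp, g4, g5⟩, ?_⟩
  -- the critical orbit
  obtain ⟨g6, -, -, g7⟩ := hC₂ κ h η n2 hcl 0 (fun i hi =>
    Or.inr (e5 i (Finset.mem_range.2 (by omega))).le)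
  have hJ : h^[p * k] 0 ∈ closedBall z₁ s := by
    rw [mem_closedBall, dist_eq_norm]
    calc ‖h^[p * k] 0 - z₁‖ = ‖(h^[p * k] 0 - (fc d κ)^[p * k] 0) +
          ((fc d κ)^[p * k] 0 - z₁)‖ := by congr 1; ring
      _ ≤ C₂ * η + s / 4 := (norm_add_le _ _).trans (add_le_add g6 e4.le)
      _ ≤ s := by linarith
  have hret2 : ∀ t : ℕ, (h^[p])^[t] (h^[p * k] 0) ∈ closedBall z₁ s := fun t =>
    hmaps.iterate t hJ
  intro j
  rcases lt_or_ge j (p * k) with hj | hj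
  · exact g7 j hj
  · obtain ⟨t, i, hi, rfl⟩ : ∃ t i : ℕ, i < p ∧ j = i + (p * t + p * k) := by
      refine ⟨(j - p * k) / p, (j - p * k) % p, Nat.mod_lt _ hp, ?_⟩
      have := Nat.mod_add_div (j - p * k) p
      omega
    rw [Function.iterate_add_apply, Function.iterate_add_apply (f := h) (m := p * t),
      Function.iterate_mul]
    have hx := hret2 t
    obtain ⟨-, g2⟩ := hin _ hx
    obtain ⟨-, -, -, g3⟩ := hC₁ κ h η n1 hcl _ g2
    exact g3 i hi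

/-- **Escape is robust.** -/
theorem esc_robust {d : ℕ} {κ₀ : ℂ} (h₀ : κ₀ ∉ multibrotSet d) :
    ∃ η : ℝ, 0 < η ∧ ∀ᶠ κ in 𝓝 κ₀, ∀ h : ℂ → ℂ, Cl d κ h η → ∃ j, 3 < ‖h^[j] 0‖ := by
  have h1 : Tendsto (fun k ↦ (fc d κ₀)^[k] 0) atTop (Bornology.cobounded ℂ) := by
    by_contra h2
    exact h₀ h2
  have h2 := (tendsto_norm_cobounded_atTop.comp h1).eventually (eventually_gt_atTop 4)
  obtain ⟨J, hJ⟩ := h2.exists
  simp only [Function.comp] at hJ
  have h3 : ∀ᶠ κ in 𝓝 κ₀, 4 < ‖(fc d κ)^[J] 0‖ := by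
    have hc : Continuous fun c : ℂ => ‖(fc d c)^[J] 0‖ :=
      ((cont_iter d J).comp (continuous_id.prodMk continuous_const)).norm
    exact (hc.tendsto κ₀).eventually_const_lt hJ
  obtain ⟨C, hC1, hC⟩ := iter_close d J
  have hC0 : 0 < C := by linarith
  refine ⟨1 / (2 * C), by positivity, ?_⟩
  filter_upwards [h3] with κ hκ h hcl
  by_contra hcon
  push Not at hcon
  obtain ⟨g1, -⟩ := hC κ h _ (by field_simp; rfl) hcl 0 (fun i _ => Or.inl (hcon i))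
  have h4 : C * (1 / (2 * C)) = 1 / 2 := by field_simp
  rw [h4] at g1
  have := norm_le_norm_add_norm_sub (h^[J] 0) ((fc d κ)^[J] 0)
  have := hcon J
  linarith

end Pool.Agent.N772.PC
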