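import Pool.Agent.N772.PC.Cpt
import Pool.Agent.N772.PC.Fun

/-!
# Consequences of the closeness of the renormalised family to the family `z ^ d + κ`
-/

set_option autoImplicit false

open Set Filter Metric MeasureTheory Topology Complex

namespace Pool.Agent.N772.PC

open N62a1eb23
open Pool.Agent.H712R2 (P fc P_zero P_succ mem_multibrot_iff)
open Pool.Agent.N673.QC (DD DD_succ hasDerivAt_iter cont_iter cont_DD DD_cycle)
open Pool.Agent.H462R2.AD (hyp)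

variable {d n : ℕ} {c l m κ : ℂ} {τ : ℝ}

/-- The renormalised family is close to the family `z ^ d + κ`. -/
def Un (d n : ℕ) (c l m : ℂ) (τ : ℝ) : Prop :=
  ∀ R : ℝ, 1 ≤ R → R ≤ Real.exp τ → ∀ κ z : ℂ, ‖κ‖ ≤ R → ‖z‖ ^ d ≤ R →
    ‖(fc d (c + l * κ))^[n] (m * z) / m - (z ^ d + κ)‖ ≤ R ^ 2 * Real.exp (-τ) ∧
    ‖deriv ((fc d (c + l * κ))^[n]) (m * z) - d * z ^ (d - 1)‖ ≤ R ^ 2 * Real.exp (-τ)

/-- the renormalised map -/
noncomputable def re (d n : ℕ) (c l m κ : ℂ) : ℂ → ℂ := fun z => (fc d (c + l * κ))^[n] (m * z) / m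

theorem diff_fc (d n : ℕ) (c : ℂ) : Differentiable ℂ ((fc d c)^[n]) := fun z =>
  (hasDerivAt_iter d n c z).differentiableAt

theorem re_iter (hm : m ≠ 0) (j : ℕ) (z : ℂ) :
    m * (re d n c l m κ)^[j] z = (fc d (c + l * κ))^[n * j] (m * z) := by
  have h1 : Function.Semiconj (fun z => m * z) (re d n c l m κ) ((fc d (c + l * κ))^[n]) := by
    intro z
    simp only [re]
    field_simp
  have h2 := (h1.iterate_right j).eq z
  rw [h2, Function.iterate_mul]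

theorem re_iter' (hm : m ≠ 0) (j : ℕ) (z : ℂ) :
    (re d n c l m κ)^[j] z = (fc d (c + l * κ))^[n * j] (m * z) / m := by
  rw [← re_iter hm]
  field_simp

theorem re_deriv (hm : m ≠ 0) (j : ℕ) (z : ℂ) :
    deriv ((re d n c l m κ)^[j]) z = deriv ((fc d (c + l * κ))^[n * j]) (m * z) := by
  have h1 : (re d n c l m κ)^[j] = fun z => (fc d (c + l * κ))^[n * j] (m * z) / m :=
    funext fun z => re_iter' hm j z
  rw [h1]
  have h2 : HasDerivAt (fun z : ℂ => m * z) m z := by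
    have := (hasDerivAt_id z).const_mul m
    rwa [mul_one] at this
  have h3 := (((diff_fc d (n * j) (c + l * κ)) (m * z)).hasDerivAt.comp z h2).div_const m
  have h4 : HasDerivAt (fun z => (fc d (c + l * κ))^[n * j] (m * z) / m)
    (deriv ((fc d (c + l * κ))^[n * j]) (m * z) * m / m) z := h3
  rw [h4.deriv]
  field_simp

theorem re_diff (hm : m ≠ 0) : Differentiable ℂ (re d n c l m κ) := by
  unfold re
  exact ((diff_fc d n (c + l * κ)).comp (differentiable_id.const_mul m)).div_const m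

/-- `3 ^ d ≤ exp τ` -/
theorem exp_ge (h : (9 : ℝ) ^ d * Real.exp (-τ) ≤ 1 / 4) : (3 : ℝ) ^ d ≤ Real.exp τ := by
  have h1 : (9 : ℝ) ^ d = 3 ^ d * 3 ^ d := by rw [← mul_pow]; norm_num
  have h2 : (1 : ℝ) ≤ 3 ^ d := one_le_pow₀ (by norm_num)
  have h3 : Real.exp (-τ) * Real.exp τ = 1 := by rw [← Real.exp_add]; simp
  have h4 : 0 < Real.exp τ := Real.exp_pos τ
  have h5 : (9 : ℝ) ^ d ≤ Real.exp τ := by
    calc (9 : ℝ) ^ d = 9 ^ d * Real.exp (-τ) * Real.exp τ := by rw [mul_assoc, h3, mul_one]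
      _ ≤ 1 / 4 * Real.exp τ := by gcongr
      _ ≤ Real.exp τ := by linarith
  nlinarith

theorem Un.cl (h : Un d n c l m τ) (hm : m ≠ 0) (hτ : (9 : ℝ) ^ d * Real.exp (-τ) ≤ 1 / 4)
    (hκ : ‖κ‖ ≤ 3 ^ d) : Cl d κ (re d n c l m κ) (9 ^ d * Real.exp (-τ)) := by
  refine ⟨re_diff hm, fun z hz => ?_⟩
  obtain ⟨h1, h2⟩ := h (3 ^ d) (one_le_pow₀ (by norm_num)) (exp_ge hτ) κ z hκ (by gcongr)
  have h3 : ((3 : ℝ) ^ d) ^ 2 = 9 ^ d := by rw [← pow_mul, mul_comm, pow_mul]; norm_num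
  rw [h3] at h1 h2
  refine ⟨h1, ?_⟩
  have := re_deriv (d := d) (n := n) (c := c) (l := l) (κ := κ) hm 1 z
  rw [Function.iterate_one, mul_one] at this
  rw [this]
  exact h2

/-- attracting cycles and bounded orbits, in the original coordinate -/
theorem AB.back (hm : m ≠ 0) (hn : 1 ≤ n) (h : AB (re d n c l m κ)) :
    c + l * κ ∈ hyp d ∧ ∀ j, ‖(fc d (c + l * κ))^[n * j] 0‖ ≤ 3 * ‖m‖ := by
  obtain ⟨⟨p, z, hp, h1, h2⟩, h3⟩ := h
  constructor
  · refine ⟨n * p, m * z, Nat.mul_pos hn hp, ?_, diff_fc d (n * p) _ _, ?_⟩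
    · show (fc d (c + l * κ))^[n * p] (m * z) = m * z
      rw [← re_iter hm, h1]
    · show ‖deriv ((fc d (c + l * κ))^[n * p]) (m * z)‖ < 1
      rw [← re_deriv hm]
      exact h2
  · intro j
    have h4 := re_iter (d := d) (n := n) (c := c) (l := l) (κ := κ) hm j 0
    rw [mul_zero] at h4
    rw [← h4, norm_mul, mul_comm]
    gcongr
    exact h3 j

/-- **Isolation.** -/
theorem isolate (hd : 2 ≤ d) {η ρ : ℝ} {h : ℂ → ℂ} (hη : η ≤ 1 / 4)
    (hcl : ∀ z, ‖z‖ ≤ ρ → ‖h z - (z ^ d + κ)‖ ≤ η) (hb : ∀ j, ‖h^[j] 0‖ ≤ ρ) :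
    ‖κ‖ ≤ 3 ∧ ∀ j, ‖h^[j] 0‖ ≤ 3 := by
  have hρ : 0 ≤ ρ := (norm_nonneg _).trans (hb 0)
  have hη0 : 0 ≤ η := (norm_nonneg _).trans (hcl 0 (by simpa using hρ))
  have hgrow : ∀ x : ℂ, 5 / 2 ≤ ‖x‖ → ‖κ‖ ≤ ‖x‖ + η → ‖x‖ ≤ ρ → 5 / 4 * ‖x‖ ≤ ‖h x‖ := by
    intro x h1 h2 h3
    have h4 := hcl x h3
    have h5 : ‖x ^ d‖ ≤ ‖h x‖ + ‖h x - (x ^ d + κ)‖ + ‖κ‖ := by
      have e : x ^ d = h x - (h x - (x ^ d + κ)) - κ := by ring
      calc ‖x ^ d‖ = ‖h x - (h x - (x ^ d + κ)) - κ‖ := by rw [← e]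
        _ ≤ ‖h x - (h x - (x ^ d + κ))‖ + ‖κ‖ := norm_sub_le _ _
        _ ≤ _ := by gcongr; exact norm_sub_le _ _
    rw [norm_pow] at h5
    have h6 : ‖x‖ ^ 2 ≤ ‖x‖ ^ d := pow_le_pow_right₀ (by linarith) hd
    nlinarith
  have key : ∀ j, ¬ (5 / 2 ≤ ‖h^[j] 0‖ ∧ ‖κ‖ ≤ ‖h^[j] 0‖ + η) := by
    rintro j ⟨h1, h2⟩
    have h3 : ∀ t : ℕ, (5 / 4 : ℝ) ^ t * (5 / 2) ≤ ‖h^[t + j] 0‖ ∧ ‖κ‖ ≤ ‖h^[t + j] 0‖ + η ∧
        5 / 2 ≤ ‖h^[t + j] 0‖ := by
      intro t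
      induction t with
      | zero =>
        rw [zero_add, pow_zero, one_mul]
        exact ⟨h1, h2, h1⟩
      | succ t ih =>
        obtain ⟨i1, i2, i3⟩ := ih
        have h4 := hgrow _ i3 i2 (hb _)
        have e : t + 1 + j = (t + j) + 1 := by ring
        rw [e, Function.iterate_succ_apply']
        refine ⟨?_, ?_, ?_⟩
        · rw [pow_succ]
          linarith
        · linarith
        · linarith
    obtain ⟨t, ht⟩ := pow_unbounded_of_one_lt ρ (show (1 : ℝ) < 5 / 4 by norm_num)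
    have h4 := (h3 t).1
    have h5 := hb (t + j)
    have h6 : (0 : ℝ) < (5 / 4) ^ t := by positivity
    linarith
  have hκ : ‖κ‖ ≤ 3 := by
    by_contra hcon
    push Not at hcon
    apply key 1
    have h1 := hcl 0 (by simpa using hρ)
    rw [zero_pow (by omega), zero_add] at h1
    rw [Function.iterate_one]
    have h2 := norm_le_norm_add_norm_sub (h 0) κ
    constructor <;> linarith
  refine ⟨hκ, fun j => ?_⟩
  by_contra hcon
  push Not at hcon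
  exact key j ⟨by linarith, by linarith⟩

/-- the fixed point, for parameters in the main component -/
theorem fix_robust (hd : 2 ≤ d) {s η : ℝ} (hs : 0 < s) (hs1 : s ≤ 1) {w : ℂ}
    (hw : d * ‖w‖ ^ (d - 1) ≤ 1 - s) (hη : η ≤ s * (s / (d ^ 2 * 2 ^ (d + 2))) / 2) {h : ℂ → ℂ}
    (hcl : Cl d (w - w ^ d) h η) :
    ∃ z ∈ closedBall w (s / (d ^ 2 * 2 ^ (d + 2))), h z = z ∧ ‖deriv h z‖ < 1 ∧
      ‖deriv h z - d * w ^ (d - 1)‖ ≤ s / 2 := by
  have hdR : (2 : ℝ) ≤ d := by exact_mod_cast hd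
  obtain ⟨r, hr⟩ : ∃ r : ℝ, r = s / (d ^ 2 * 2 ^ (d + 2)) := ⟨_, rfl⟩
  have hr0 : 0 < r := by rw [hr]; positivity
  rw [← hr] at hη ⊢
  have hrs : d ^ 2 * 2 ^ d * r = s / 4 := by
    rw [hr, pow_add]
    field_simp
    norm_num
  have hr1 : r ≤ 1 / 2 := by
    have h1 : (4 : ℝ) ≤ d ^ 2 * 2 ^ d := by
      have h2 : (2 : ℝ) ^ 2 ≤ d ^ 2 := by gcongr
      have h3 : (1 : ℝ) ≤ 2 ^ d := one_le_pow₀ (by norm_num)
      nlinarith
    nlinarith
  have hw1 : ‖w‖ ≤ 1 := by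
    by_contra hcon
    push Not at hcon
    have : 1 ≤ ‖w‖ ^ (d - 1) := one_le_pow₀ hcon.le
    nlinarith
  have hη4 : η ≤ s / 4 := by nlinarith
  have hz2 : ∀ z ∈ closedBall w r, ‖z‖ ≤ 2 := by
    intro z hz
    rw [mem_closedBall, dist_eq_norm] at hz
    have := norm_le_norm_add_norm_sub' z w
    linarith
  have hdev : ∀ z ∈ closedBall w r, ‖deriv h z - d * w ^ (d - 1)‖ ≤ s / 2 := by
    intro z hz
    have h1 := (hcl.2 z ((hz2 z hz).trans (by norm_num))).2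
    have h2 := Pool.Agent.H762R2.Rt.pow_lip (hz2 z hz) (hw1.trans (by norm_num)) (d - 1)
    have h3 : ‖(d : ℂ) * (z ^ (d - 1) - w ^ (d - 1))‖ ≤ s / 4 := by
      rw [norm_mul, Complex.norm_natCast, ← hrs]
      rw [mem_closedBall, dist_eq_norm] at hz
      have h4 : ((d - 1 : ℕ) : ℝ) ≤ d := by exact_mod_cast Nat.sub_le d 1
      have h5 : (2 : ℝ) ^ (d - 1 - 1) ≤ 2 ^ d := pow_le_pow_right₀ (by norm_num) (by omega)
      calc (d : ℝ) * ‖z ^ (d - 1) - w ^ (d - 1)‖ ≤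
            d * (((d - 1 : ℕ) : ℝ) * 2 ^ (d - 1 - 1) * ‖z - w‖) := by gcongr
        _ ≤ d * (d * 2 ^ d * r) := by gcongr
        _ = _ := by ring
    have e : deriv h z - d * w ^ (d - 1) = (deriv h z - d * z ^ (d - 1)) +
        d * (z ^ (d - 1) - w ^ (d - 1)) := by ring
    rw [e]
    refine (norm_add_le _ _).trans ?_
    linarith
  have hder : ∀ z ∈ closedBall w r, ‖deriv h z‖ ≤ 1 - s / 2 := by
    intro z hz
    have h1 := norm_le_norm_add_norm_sub' (deriv h z) (d * w ^ (d - 1))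
    have h2 := hdev z hz
    have h3 : ‖(d : ℂ) * w ^ (d - 1)‖ ≤ 1 - s := by
      rw [norm_mul, Complex.norm_natCast, norm_pow]
      exact hw
    linarith
  have hret : ‖h w - w‖ ≤ s / 2 * r := by
    have h1 := (hcl.2 w (hw1.trans (by norm_num))).1
    have e : w ^ d + (w - w ^ d) = w := by ring
    rw [e] at h1
    exact h1.trans (hη.trans (by linarith))
  have hmaps : MapsTo h (closedBall w r) (closedBall w r) := by
    intro z hz
    have h6 := (convex_closedBall w r).norm_image_sub_le_of_norm_deriv_le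
      (f := h) (C := 1 - s / 2) (x := w) (y := z) (fun x _ => hcl.1 x)
      (fun x hx => hder x hx) (mem_closedBall_self hr0.le) hz
    rw [mem_closedBall, dist_eq_norm] at hz ⊢
    calc ‖h z - w‖ = ‖(h z - h w) + (h w - w)‖ := by rw [sub_add_sub_cancel]
      _ ≤ ‖h z - h w‖ + ‖h w - w‖ := norm_add_le _ _
      _ ≤ (1 - s / 2) * ‖z - w‖ + s / 2 * r := add_le_add h6 hret
      _ ≤ (1 - s / 2) * r + s / 2 * r := by
          have : 0 ≤ 1 - s / 2 := by linarith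
          gcongr
      _ = r := by ring
  obtain ⟨z, hz, g4, g5⟩ := Pool.Agent.H749R2.Hyp.fixed_of_contr hr0.le (by linarith)
    (by linarith) hcl.1 hmaps hder
  exact ⟨z, hz, g4, g5, hdev z hz⟩

end Pool.Agent.N772.PC
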